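import Pool.Agent.Helper151_VT.Edge

set_option autoImplicit false
set_option linter.unusedSectionVars false

/-! # Bipartite cubic multigraphs, and edge-transitive multigraphs -/

namespace Pool.Agent.Helper151_VT

open Finset Pool.Agent.TH676.Z Pool.Agent.Y335.FL

variable {V E : Type} [Fintype V] [DecidableEq V] [Fintype E] [DecidableEq E] {src dst : E → V}

/-- a bipartite cubic multigraph has a perfect matching -/
theorem bip_matching (A : Finset V) (hA : ∀ e, src e ∈ A ↔ dst e ∉ A)
    (hcub : ∀ x, (boundary src dst {x}).card = 3) :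
    ∃ M : Finset E, ∀ x, (M ∩ boundary src dst {x}).card = 1 := by
  classical
  have hbd : ∀ e x, e ∈ boundary src dst {x} ↔ (src e = x ∨ dst e = x) := by
    intro e x
    rw [mem_boundary, mem_singleton, mem_singleton]
    constructor
    · intro h
      by_contra h2
      push Not at h2
      exact h ⟨fun h3 => absurd h3 h2.1, fun h3 => absurd h3 h2.2⟩
    · intro h h2
      have h3 : src e = x ∧ dst e = x := by
        rcases h with h | h
        · exact ⟨h, h2.mp h⟩
        · exact ⟨h2.mpr h, h⟩
      have h4 := hA e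
      rw [h3.1, h3.2] at h4
      tauto
  -- stars of vertices on the same side are disjoint
  have hdis : ∀ x y e, (x ∈ A ↔ y ∈ A) → e ∈ boundary src dst {x} → e ∈ boundary src dst {y} →
      x = y := by
    intro x y e hxy h1 h2
    rw [hbd] at h1 h2
    have h3 := hA e
    rcases h1 with h1 | h1 <;> rcases h2 with h2 | h2
    · exact h1.symm.trans h2
    · rw [h1, h2] at h3
      tauto
    · rw [h1, h2] at h3
      tauto
    · exact h1.symm.trans h2
  have hcount : ∀ S : Finset V, (∀ x ∈ S, ∀ y ∈ S, (x ∈ A ↔ y ∈ A)) →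
      (S.biUnion (fun x => boundary src dst {x})).card = 3 * S.card := by
    intro S hS
    rw [card_biUnion]
    · rw [sum_congr rfl (fun x _ => hcub x), sum_const, smul_eq_mul, mul_comm]
    · intro x hx y hy hxy
      show Disjoint (boundary src dst {x}) (boundary src dst {y})
      rw [disjoint_left]
      intro e h1 h2
      exact hxy (hdis x y e (hS x hx y hy) h1 h2)
  -- the neighbours
  obtain ⟨t, ht⟩ : ∃ t : {x // x ∈ A} → Finset V, t = fun a => univ.filter (fun y =>
      (joining src dst a.1 y).Nonempty) := ⟨_, rfl⟩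
  have hmt : ∀ a y, y ∈ t a ↔ (joining src dst a.1 y).Nonempty := fun a y => by rw [ht]; simp
  have hnotA : ∀ (a : {x // x ∈ A}) y, (joining src dst a.1 y).Nonempty → y ∉ A := by
    intro a y ⟨e, he⟩ hy
    simp only [joining, mem_filter, mem_univ, true_and] at he
    have h3 := hA e
    have h4 := a.2
    rcases he with ⟨h1, h2⟩ | ⟨h1, h2⟩
    · rw [h1, h2] at h3
      tauto
    · rw [h1, h2] at h3
      tauto
  have hhall : ∀ s : Finset {x // x ∈ A}, s.card ≤ (s.biUnion t).card := by
    intro s
    have h1 := hcount (s.image Subtype.val) (by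
      intro x hx y hy
      obtain ⟨a, -, rfl⟩ := mem_image.mp hx
      obtain ⟨b, -, rfl⟩ := mem_image.mp hy
      exact ⟨fun _ => b.2, fun _ => a.2⟩)
    have h2 := hcount (s.biUnion t) (by
      intro x hx y hy
      obtain ⟨a, -, ha⟩ := mem_biUnion.mp hx
      obtain ⟨b, -, hb⟩ := mem_biUnion.mp hy
      exact ⟨fun h => absurd h (hnotA a x ((hmt a x).mp ha)),
        fun h => absurd h (hnotA b y ((hmt b y).mp hb))⟩)
    have h3 : (s.image Subtype.val).biUnion (fun x => boundary src dst {x}) ⊆
        (s.biUnion t).biUnion (fun x => boundary src dst {x}) := by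
      intro e he
      obtain ⟨x, hx, hxe⟩ := mem_biUnion.mp he
      obtain ⟨a, ha, rfl⟩ := mem_image.mp hx
      rw [hbd] at hxe
      rcases hxe with h | h
      · refine mem_biUnion.mpr ⟨dst e, mem_biUnion.mpr ⟨a, ha, ?_⟩, ?_⟩
        · rw [hmt]
          exact ⟨e, by simp [joining, h]⟩
        · rw [hbd]
          exact Or.inr rfl
      · refine mem_biUnion.mpr ⟨src e, mem_biUnion.mpr ⟨a, ha, ?_⟩, ?_⟩
        · rw [hmt]
          exact ⟨e, by simp [joining, h]⟩
        · rw [hbd]
          exact Or.inl rfl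
    have h4 := card_le_card h3
    rw [h1, h2, card_image_of_injective _ Subtype.val_injective] at h4
    omega
  obtain ⟨f, hf, hft⟩ := (Finset.all_card_le_biUnion_card_iff_exists_injective t).mp hhall
  -- both sides have the same size
  have hAA : A.card = Aᶜ.card := by
    have h1 := hcount A (fun x hx y hy => ⟨fun _ => hy, fun _ => hx⟩)
    have h2 := hcount Aᶜ (fun x hx y hy => by
      rw [mem_compl] at hx hy
      exact ⟨fun h => absurd h hx, fun h => absurd h hy⟩)
    have h3 : A.biUnion (fun x => boundary src dst {x}) = univ := by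
      apply eq_univ_of_forall
      intro e
      by_cases h : src e ∈ A
      · exact mem_biUnion.mpr ⟨src e, h, by rw [hbd]; exact Or.inl rfl⟩
      · have h' : dst e ∈ A := by
          have := hA e
          tauto
        exact mem_biUnion.mpr ⟨dst e, h', by rw [hbd]; exact Or.inr rfl⟩
    have h4 : Aᶜ.biUnion (fun x => boundary src dst {x}) = univ := by
      apply eq_univ_of_forall
      intro e
      by_cases h : src e ∈ A
      · have h' : dst e ∉ A := (hA e).mp h
        exact mem_biUnion.mpr ⟨dst e, by rw [mem_compl]; exact h', by rw [hbd]; exact Or.inr rfl⟩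
      · exact mem_biUnion.mpr ⟨src e, by rw [mem_compl]; exact h, by rw [hbd]; exact Or.inl rfl⟩
    rw [h3] at h1
    rw [h4] at h2
    omega
  have hsurj : ∀ y, y ∉ A → ∃ a, f a = y := by
    intro y hy
    have h1 : univ.image f ⊆ Aᶜ := by
      intro z hz
      obtain ⟨a, -, rfl⟩ := mem_image.mp hz
      rw [mem_compl]
      exact hnotA a _ ((hmt a _).mp (hft a))
    have h2 : univ.image f = Aᶜ := by
      apply eq_of_subset_of_card_le h1
      rw [card_image_of_injective _ hf, card_univ, Fintype.card_coe, ← hAA]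
    have h3 : y ∈ univ.image f := by
      rw [h2, mem_compl]
      exact hy
    obtain ⟨a, -, ha⟩ := mem_image.mp h3
    exact ⟨a, ha⟩
  choose m hm using fun a => (hmt a (f a)).mp (hft a)
  have hm' : ∀ a x, m a ∈ boundary src dst {x} ↔ (x = a.1 ∨ x = f a) := by
    intro a x
    have h1 := hm a
    simp only [joining, mem_filter, mem_univ, true_and] at h1
    rw [hbd]
    rcases h1 with ⟨p, q⟩ | ⟨p, q⟩
    · rw [p, q]
      exact ⟨fun h => h.imp Eq.symm Eq.symm, fun h => h.imp Eq.symm Eq.symm⟩
    · rw [p, q]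
      exact ⟨fun h => (h.imp Eq.symm Eq.symm).symm, fun h => (h.imp Eq.symm Eq.symm).symm⟩
  have hfA : ∀ a, f a ∉ A := fun a => hnotA a _ ((hmt a _).mp (hft a))
  refine ⟨univ.image m, fun x => ?_⟩
  rw [card_eq_one]
  by_cases hx : x ∈ A
  · refine ⟨m ⟨x, hx⟩, ?_⟩
    ext e
    rw [mem_inter, mem_singleton]
    constructor
    · rintro ⟨h1, h2⟩
      obtain ⟨a, -, rfl⟩ := mem_image.mp h1
      rw [hm'] at h2
      rcases h2 with h2 | h2
      · congr 1
        exact Subtype.ext h2.symm
      · exact absurd (h2 ▸ hx) (hfA a)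
    · rintro rfl
      exact ⟨mem_image_of_mem _ (mem_univ _), by rw [hm']; exact Or.inl rfl⟩
  · obtain ⟨a0, rfl⟩ := hsurj x hx
    refine ⟨m a0, ?_⟩
    ext e
    rw [mem_inter, mem_singleton]
    constructor
    · rintro ⟨h1, h2⟩
      obtain ⟨a, -, rfl⟩ := mem_image.mp h1
      rw [hm'] at h2
      rcases h2 with h2 | h2
      · exact absurd (h2 ▸ a.2) hx
      · rw [hf h2]
    · rintro rfl
      exact ⟨mem_image_of_mem _ (mem_univ _), by rw [hm']; exact Or.inr rfl⟩

/-- a bipartite cubic multigraph has a nowhere-zero flow -/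
theorem bip_flow (A : Finset V) (hA : ∀ e, src e ∈ A ↔ dst e ∉ A)
    (hcub : ∀ x, (boundary src dst {x}).card = 3) : FlowOn src dst ∅ ∅ := by
  obtain ⟨M, hM⟩ := bip_matching A hA hcub
  obtain ⟨w, hw⟩ : ∃ w : E → ZMod 5, w = fun e => if e ∈ M then 3 else 1 := ⟨_, rfl⟩
  have hw0 : ∀ e, w e ≠ 0 := by
    intro e
    rw [hw]
    dsimp only
    split_ifs <;> decide
  have hloop : ∀ e, src e ≠ dst e := by
    intro e h
    have := hA e
    rw [h] at this
    tauto
  have hsum : ∀ v, ∑ e ∈ boundary src dst {v}, w e = 0 := by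
    intro v
    have h1 : ∀ e, w e = 1 + (if e ∈ M then 2 else 0) := by
      intro e
      rw [hw]
      dsimp only
      split_ifs
      · decide
      · rw [add_zero]
    rw [sum_congr rfl (fun e _ => h1 e), sum_add_distrib, sum_const, hcub v, ← sum_filter]
    have h2 : (boundary src dst {v}).filter (fun e => e ∈ M) = M ∩ boundary src dst {v} := by
      ext e
      simp only [mem_filter, mem_inter]
      tauto
    rw [h2, sum_const, hM v]
    decide
  refine ⟨fun e => if src e ∈ A then w e else - w e, fun v => ?_,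
    fun e he => absurd he (notMem_empty _), fun e _ _ => ?_⟩
  · have h1 : bd src dst (fun e => if src e ∈ A then w e else - w e) v =
        ∑ e ∈ boundary src dst {v}, (if v ∈ A then w e else - w e) := by
      unfold bd boundary
      rw [sum_filter]
      refine sum_congr rfl fun e _ => ?_
      have h2 := hA e
      have h3 := hloop e
      simp only [mem_singleton]
      by_cases p : src e = v
      · have q : dst e ≠ v := fun q => h3 (p.trans q.symm)
        have hne : ¬ (src e = v ↔ dst e = v) := by tauto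
        rw [if_pos p, if_neg q, sub_zero, if_pos hne, p]
      · by_cases q : dst e = v
        · have hne : ¬ (src e = v ↔ dst e = v) := by tauto
          rw [if_neg p, if_pos q, zero_sub, if_pos hne]
          rw [q] at h2
          by_cases hs : src e ∈ A
          · rw [if_pos hs, if_neg (h2.mp hs)]
          · have hv : v ∈ A := by
              by_contra hv
              exact hs (h2.mpr hv)
            rw [if_neg hs, if_pos hv, neg_neg]
        · have hne : ¬ ¬ (src e = v ↔ dst e = v) := by tauto
          rw [if_neg p, if_neg q, sub_zero, if_neg hne]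
    rw [h1]
    by_cases hv : v ∈ A
    · simp only [hv, if_true]
      exact hsum v
    · simp only [hv, if_false]
      rw [sum_neg_distrib, hsum v, neg_zero]
  · dsimp only
    split_ifs
    · exact hw0 e
    · exact neg_ne_zero.mpr (hw0 e)

/-- an edge-transitive multigraph without isolated vertices is vertex-transitive or bipartite -/
theorem edge_vertex (hE : EdgeTransitive src dst)
    (hdeg : ∀ x, 1 ≤ (boundary src dst {x}).card) :
    VertexTransitive src dst ∨ ∃ A : Finset V, ∀ e, src e ∈ A ↔ dst e ∉ A := by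
  classical
  rcases isEmpty_or_nonempty V with hV | ⟨⟨x0⟩⟩
  · exact Or.inl fun u => (hV.false u).elim
  obtain ⟨e0, -⟩ := card_pos.mp (hdeg x0)
  have hcov : ∀ x, ∃ (σ : Equiv.Perm V) (τ : Equiv.Perm E), IsAut src dst σ τ ∧
      (σ (src e0) = x ∨ σ (dst e0) = x) := by
    intro x
    obtain ⟨f, hf⟩ := card_pos.mp (hdeg x)
    obtain ⟨σ, τ, h, hτ⟩ := hE e0 f
    refine ⟨σ, τ, h, ?_⟩
    rw [mem_boundary, mem_singleton, mem_singleton] at hf
    have h1 : src f = x ∨ dst f = x := by tauto
    rcases h e0 with ⟨p, q⟩ | ⟨p, q⟩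
    · rw [hτ] at p q
      rw [p, q] at h1
      exact h1
    · rw [hτ] at p q
      rw [p, q] at h1
      exact h1.symm
  by_cases hpq : ∃ (σ : Equiv.Perm V) (τ : Equiv.Perm E), IsAut src dst σ τ ∧
      σ (src e0) = dst e0
  · left
    obtain ⟨ρ, κ, hρ, hρe⟩ := hpq
    have h1 : ∀ x, ∃ (σ : Equiv.Perm V) (τ : Equiv.Perm E), IsAut src dst σ τ ∧
        σ (src e0) = x := by
      intro x
      obtain ⟨σ, τ, h, h2 | h2⟩ := hcov x
      · exact ⟨σ, τ, h, h2⟩
      · exact ⟨_, _, hρ.trans h, by rw [Equiv.trans_apply, hρe, h2]⟩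
    intro u v
    obtain ⟨σ, τ, h, hu⟩ := h1 u
    obtain ⟨σ', τ', h', hv⟩ := h1 v
    refine ⟨_, _, h.symm.trans h', ?_⟩
    rw [Equiv.trans_apply, ← hu, Equiv.symm_apply_apply, hv]
  · right
    refine ⟨univ.filter (fun x => ∃ (σ : Equiv.Perm V) (τ : Equiv.Perm E), IsAut src dst σ τ ∧
      σ (src e0) = x), fun f => ?_⟩
    simp only [mem_filter, mem_univ, true_and]
    obtain ⟨σ, τ, h, hτ⟩ := hE e0 f
    have h1 : ∃ (σ' : Equiv.Perm V) (τ' : Equiv.Perm E), IsAut src dst σ' τ' ∧
        σ' (src e0) = σ (src e0) := ⟨σ, τ, h, rfl⟩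
    have h2 : ¬ ∃ (σ' : Equiv.Perm V) (τ' : Equiv.Perm E), IsAut src dst σ' τ' ∧
        σ' (src e0) = σ (dst e0) := by
      rintro ⟨σ', τ', h', hx⟩
      apply hpq
      refine ⟨_, _, h'.trans h.symm, ?_⟩
      rw [Equiv.trans_apply, hx, Equiv.symm_apply_apply]
    rcases h e0 with ⟨p, q⟩ | ⟨p, q⟩
    · rw [hτ] at p q
      rw [p, q]
      exact ⟨fun _ => h2, fun _ => h1⟩
    · rw [hτ] at p q
      rw [p, q]
      exact ⟨fun h => absurd h h2, fun h => absurd h1 h⟩

/-- the reduction for edge-transitive multigraphs, with vertex-transitivity -/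
theorem edge_reduction' (hloc : St_local) (hE : EdgeTransitive src dst)
    (hconn : ∀ X : Finset V, X.Nonempty → X ≠ univ → 1 ≤ (boundary src dst X).card)
    (hdeg : ∀ x, 3 ≤ (boundary src dst {x}).card) (hnf : ¬ FlowOn src dst ∅ ∅) :
    VertexTransitive src dst ∧ Residual src dst := by
  have h := edge_reduction hloc hE hconn hdeg hnf
  refine ⟨?_, h⟩
  rcases edge_vertex hE (fun x => by have := hdeg x; omega) with h1 | ⟨A, hA⟩
  · exact h1
  · exact absurd (bip_flow A hA h.cubic) hnf

end Pool.Agent.Helper151_VT
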