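import Mathlib

set_option autoImplicit false

/-!
# Multigraphs with transitive automorphism groups: definitions

A multigraph is given by its vertices `V`, its edges `E` and the ends `src e`, `dst e` of the edges
`e` (the orientation is arbitrary; loops and parallel edges are allowed).
-/

namespace Pool.Agent.Helper151_VT

variable {V E : Type}

/-- The edges with exactly one end in `X`.  For `X = {x}` these are the edges at the vertex `x`
which are not loops. -/
def boundary [DecidableEq V] [Fintype E] (src dst : E → V) (X : Finset V) : Finset E :=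
  Finset.univ.filter (fun e => ¬ (src e ∈ X ↔ dst e ∈ X))

/-- The edges joining `x` and `y`. -/
def joining [DecidableEq V] [Fintype E] (src dst : E → V) (x y : V) : Finset E :=
  Finset.univ.filter (fun e => (src e = x ∧ dst e = y) ∨ (src e = y ∧ dst e = x))

/-- The permutations `σ` of the vertices and `τ` of the edges form an automorphism: for each edge
`e` the ends of `τ e` are the images under `σ` of the ends of `e`. -/
def IsAut (src dst : E → V) (σ : Equiv.Perm V) (τ : Equiv.Perm E) : Prop :=
  ∀ e, (src (τ e) = σ (src e) ∧ dst (τ e) = σ (dst e)) ∨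
    (src (τ e) = σ (dst e) ∧ dst (τ e) = σ (src e))

/-- The automorphism group is transitive on the vertices. -/
def VertexTransitive (src dst : E → V) : Prop :=
  ∀ u v : V, ∃ (σ : Equiv.Perm V) (τ : Equiv.Perm E), IsAut src dst σ τ ∧ σ u = v

/-- The automorphism group is transitive on the edges. -/
def EdgeTransitive (src dst : E → V) : Prop :=
  ∀ e f : E, ∃ (σ : Equiv.Perm V) (τ : Equiv.Perm E), IsAut src dst σ τ ∧ τ e = f

/-- `Γ` is a group of automorphisms (a set of pairs of permutations of the vertices and the edges
which is closed under composition and inverses) which is transitive on the vertices. -/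
structure TransitiveGroup (src dst : E → V) (Γ : Set (Equiv.Perm V × Equiv.Perm E)) : Prop where
  aut : ∀ p ∈ Γ, IsAut src dst p.1 p.2
  mul : ∀ p ∈ Γ, ∀ q ∈ Γ, (p.1.trans q.1, p.2.trans q.2) ∈ Γ
  inv : ∀ p ∈ Γ, (p.1.symm, p.2.symm) ∈ Γ
  transitive : ∀ u v : V, ∃ p ∈ Γ, p.1 u = v

/-- `Γ` is transitive on the edges which are not loops. -/
def EdgeTransitiveGroup (src dst : E → V) (Γ : Set (Equiv.Perm V × Equiv.Perm E)) : Prop :=
  ∀ e f : E, src e ≠ dst e → src f ≠ dst f → ∃ p ∈ Γ, p.2 e = f

/-- `v 0, ..., v (n + 1)` are distinct vertices and `ed i` joins `v i` and `v (i + 1)`, where the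
indices are taken modulo `n + 2` and the edges `ed i` are distinct: a circuit of length `n + 2`. -/
def IsCircuit (src dst : E → V) {n : ℕ} (v : Fin (n + 2) → V) (ed : Fin (n + 2) → E) : Prop :=
  Function.Injective v ∧ Function.Injective ed ∧
    ∀ i, (src (ed i) = v i ∧ dst (ed i) = v (i + 1)) ∨ (src (ed i) = v (i + 1) ∧ dst (ed i) = v i)

/-- 3-edge-connected cubic multigraphs in which every edge cut with three edges is the star of a
vertex and every circuit (of length at least two) has at least twelve edges (loops are ignored). -/
structure Residual [Fintype V] [DecidableEq V] [Fintype E] (src dst : E → V) : Prop where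
  cubic : ∀ x, (boundary src dst {x}).card = 3
  cuts : ∀ X : Finset V, X.Nonempty → X ≠ Finset.univ → 3 ≤ (boundary src dst X).card
  stars : ∀ X : Finset V, (boundary src dst X).card = 3 → X.card = 1 ∨ Xᶜ.card = 1
  girth : ∀ (n : ℕ) (v : Fin (n + 2) → V) (ed : Fin (n + 2) → E), IsCircuit src dst v ed →
    12 ≤ n + 2

/-- Every vertex lies in a triangle whose three pairs of vertices are joined by `m` edges each, and
the degree is `2 m + 1`. -/
def Triangles [DecidableEq V] [Fintype E] (src dst : E → V) : Prop :=
  ∃ m : ℕ, ∀ x, (boundary src dst {x}).card = 2 * m + 1 ∧ ∃ y z, x ≠ y ∧ x ≠ z ∧ y ≠ z ∧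
    (joining src dst x y).card = m ∧ (joining src dst x z).card = m ∧
      (joining src dst y z).card = m

/-- `x` and `y` are joined by a path with edges in `N`. -/
def Linked (src dst : E → V) (N : Finset E) : V → V → Prop :=
  Relation.EqvGen (fun a b => ∃ e ∈ N, src e = a ∧ dst e = b)

/-- The component of `x` in the graph with the vertices `V` and the edges `N`. -/
noncomputable def component [Fintype V] (src dst : E → V) (N : Finset E) (x : V) : Finset V :=
  open Classical in Finset.univ.filter (fun y => Linked src dst N x y)

/-- There is a set `N` of edges (no loops) with exactly two edges at every vertex which is mapped to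
itself by all elements of `Γ`, and all components of the graph with the edges `N` have the same odd
number `l ≥ 13` of vertices (so they are circuits of length `l`). -/
def OddTwoFactor [Fintype V] [DecidableEq V] [Fintype E] [DecidableEq E] (src dst : E → V)
    (Γ : Set (Equiv.Perm V × Equiv.Perm E)) : Prop :=
  ∃ (N : Finset E) (l : ℕ), (∀ p ∈ Γ, ∀ e, e ∈ N ↔ p.2 e ∈ N) ∧
    (∀ e ∈ N, src e ≠ dst e) ∧ (∀ x, (N ∩ boundary src dst {x}).card = 2) ∧
    (∀ x, (component src dst N x).card = l) ∧ Odd l ∧ 13 ≤ l

/-- Kirchhoff's law. -/
def IsFlow [DecidableEq V] [Fintype E] (src dst : E → V) (f : E → ℤ) : Prop :=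
  ∀ v : V, ∑ e ∈ Finset.univ.filter (fun e => src e = v), f e
    = ∑ e ∈ Finset.univ.filter (fun e => dst e = v), f e

/-- There is a nowhere-zero 5-flow. -/
def HasFiveFlow [DecidableEq V] [Fintype E] (src dst : E → V) : Prop :=
  ∃ f : E → ℤ, IsFlow src dst f ∧ ∀ e, 1 ≤ |f e| ∧ |f e| ≤ 4

/-- The number of the components of the graph with the vertices `V` and the edges `A`. -/
noncomputable def components (src dst : E → V) (A : Finset E) : ℕ :=
  Nat.card (SimpleGraph.fromRel
    (fun u v : V => ∃ e ∈ A, src e = u ∧ dst e = v)).ConnectedComponent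

/-- The rank of `A` in the cycle matroid of the graph. -/
noncomputable def cycleRank [Fintype V] (src dst : E → V) (A : Finset E) : ℕ :=
  Fintype.card V - components src dst A

/-- The rank of `A` in the bond matroid of the graph (the dual of the cycle matroid). -/
noncomputable def bondRank [Fintype V] [Fintype E] [DecidableEq E] (src dst : E → V)
    (A : Finset E) : ℕ :=
  A.card + cycleRank src dst Aᶜ - cycleRank src dst Finset.univ

/-- The characteristic polynomial of the bond matroid at the integer `x`. -/
noncomputable def bondCharPoly [Fintype V] [Fintype E] [DecidableEq E] (src dst : E → V)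
    (x : ℤ) : ℤ :=
  ∑ A : Finset E, (-1) ^ A.card * x ^ (bondRank src dst Finset.univ - bondRank src dst A)

end Pool.Agent.Helper151_VT
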