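import Pool.Agent.Helper151_VT.Defs

set_option autoImplicit false
set_option linter.unusedSectionVars false

/-! # Small edge cuts and automorphisms of multigraphs -/

namespace Pool.Agent.Helper151_VT

open Finset

variable {V E : Type}

section

variable [DecidableEq V] [Fintype E] (src dst : E → V)

theorem mem_boundary (X : Finset V) (e : E) :
    e ∈ boundary src dst X ↔ ¬ (src e ∈ X ↔ dst e ∈ X) := by
  simp [boundary]

theorem boundary_empty : boundary src dst ∅ = ∅ := by simp [boundary]

theorem boundary_compl [Fintype V] (X : Finset V) : boundary src dst Xᶜ = boundary src dst X := by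
  ext e
  simp only [mem_boundary, mem_compl]
  tauto

theorem card_boundary (X : Finset V) :
    (boundary src dst X).card = ∑ e : E, if (src e ∈ X ↔ dst e ∈ X) then 0 else 1 := by
  unfold boundary
  rw [card_filter]
  refine sum_congr rfl fun e _ => ?_
  by_cases h : (src e ∈ X ↔ dst e ∈ X) <;> simp [h]

/-- submodularity -/
theorem submod (A B : Finset V) :
    (boundary src dst (A ∩ B)).card + (boundary src dst (A ∪ B)).card ≤
      (boundary src dst A).card + (boundary src dst B).card := by
  simp only [card_boundary, ← sum_add_distrib]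
  refine sum_le_sum fun e _ => ?_
  simp only [mem_inter, mem_union]
  by_cases h1 : src e ∈ A <;> by_cases h2 : src e ∈ B <;> by_cases h3 : dst e ∈ A <;>
    by_cases h4 : dst e ∈ B <;> simp [h1, h2, h3, h4]

/-- posimodularity -/
theorem posimod (A B : Finset V) :
    (boundary src dst (A \ B)).card + (boundary src dst (B \ A)).card ≤
      (boundary src dst A).card + (boundary src dst B).card := by
  simp only [card_boundary, ← sum_add_distrib]
  refine sum_le_sum fun e _ => ?_
  simp only [mem_sdiff]
  by_cases h1 : src e ∈ A <;> by_cases h2 : src e ∈ B <;> by_cases h3 : dst e ∈ A <;>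
    by_cases h4 : dst e ∈ B <;> simp [h1, h2, h3, h4]

/-- parity -/
theorem parity (A B : Finset V) :
    ((boundary src dst (A ∩ B)).card + (boundary src dst (A \ B)).card) % 2 =
      (boundary src dst A).card % 2 := by
  have h : ∃ k, (boundary src dst (A ∩ B)).card + (boundary src dst (A \ B)).card =
      (boundary src dst A).card + 2 * k := by
    refine ⟨∑ e : E, if (src e ∈ A ∧ dst e ∈ A ∧ ¬ (src e ∈ B ↔ dst e ∈ B)) then 1 else 0, ?_⟩
    simp only [card_boundary, ← sum_add_distrib, mul_sum]
    refine sum_congr rfl fun e _ => ?_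
    simp only [mem_sdiff, mem_inter]
    by_cases h1 : src e ∈ A <;> by_cases h2 : src e ∈ B <;> by_cases h3 : dst e ∈ A <;>
      by_cases h4 : dst e ∈ B <;> simp [h1, h2, h3, h4]
  obtain ⟨k, hk⟩ := h
  omega

end

section aut

variable {src dst : E → V} {σ : Equiv.Perm V} {τ : Equiv.Perm E}

theorem IsAut.refl (src dst : E → V) : IsAut src dst (Equiv.refl V) (Equiv.refl E) :=
  fun _ => Or.inl ⟨rfl, rfl⟩

theorem IsAut.symm (h : IsAut src dst σ τ) : IsAut src dst σ.symm τ.symm := by
  intro e
  rcases h (τ.symm e) with ⟨h1, h2⟩ | ⟨h1, h2⟩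
  · rw [Equiv.apply_symm_apply] at h1 h2
    exact Or.inl ⟨by rw [h1, Equiv.symm_apply_apply], by rw [h2, Equiv.symm_apply_apply]⟩
  · rw [Equiv.apply_symm_apply] at h1 h2
    exact Or.inr ⟨by rw [h2, Equiv.symm_apply_apply], by rw [h1, Equiv.symm_apply_apply]⟩

theorem IsAut.trans (h : IsAut src dst σ τ) {σ' : Equiv.Perm V} {τ' : Equiv.Perm E}
    (h' : IsAut src dst σ' τ') : IsAut src dst (σ.trans σ') (τ.trans τ') := by
  intro e
  simp only [Equiv.trans_apply]
  rcases h e with ⟨h1, h2⟩ | ⟨h1, h2⟩ <;> rcases h' (τ e) with ⟨h3, h4⟩ | ⟨h3, h4⟩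
  · exact Or.inl ⟨by rw [h3, h1], by rw [h4, h2]⟩
  · exact Or.inr ⟨by rw [h3, h2], by rw [h4, h1]⟩
  · exact Or.inr ⟨by rw [h3, h1], by rw [h4, h2]⟩
  · exact Or.inl ⟨by rw [h3, h2], by rw [h4, h1]⟩

theorem mem_boundary_image [DecidableEq V] [Fintype E] (h : IsAut src dst σ τ) (X : Finset V)
    (e : E) : τ e ∈ boundary src dst (X.image σ) ↔ e ∈ boundary src dst X := by
  rw [mem_boundary, mem_boundary]
  rcases h e with ⟨h1, h2⟩ | ⟨h1, h2⟩
  · rw [h1, h2, σ.injective.mem_finset_image, σ.injective.mem_finset_image]
  · rw [h1, h2, σ.injective.mem_finset_image, σ.injective.mem_finset_image]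
    tauto

theorem card_boundary_image [DecidableEq V] [Fintype E] (h : IsAut src dst σ τ) (X : Finset V) :
    (boundary src dst (X.image σ)).card = (boundary src dst X).card :=
  (card_equiv τ fun e => (mem_boundary_image h X e).symm).symm

theorem IsCircuit.map (h : IsAut src dst σ τ) {n : ℕ} {v : Fin (n + 2) → V}
    {ed : Fin (n + 2) → E} (hc : IsCircuit src dst v ed) :
    IsCircuit src dst (σ ∘ v) (τ ∘ ed) := by
  refine ⟨σ.injective.comp hc.1, τ.injective.comp hc.2.1, fun i => ?_⟩
  simp only [Function.comp]
  rcases h (ed i) with ⟨h1, h2⟩ | ⟨h1, h2⟩ <;> rcases hc.2.2 i with ⟨h3, h4⟩ | ⟨h3, h4⟩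
  · exact Or.inl ⟨by rw [h1, h3], by rw [h2, h4]⟩
  · exact Or.inr ⟨by rw [h1, h3], by rw [h2, h4]⟩
  · exact Or.inr ⟨by rw [h1, h4], by rw [h2, h3]⟩
  · exact Or.inl ⟨by rw [h1, h4], by rw [h2, h3]⟩

end aut

section cross

variable [Fintype V] [DecidableEq V] [Fintype E] {src dst : E → V}

/-- two cuts of minimum size, both of size three, do not cross -/
theorem no_cross3 (h3 : ∀ X : Finset V, X.Nonempty → X ≠ univ → 3 ≤ (boundary src dst X).card)
    (X Y : Finset V) (hX : (boundary src dst X).card = 3) (hY : (boundary src dst Y).card = 3)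
    (hc : X.card = Y.card) (h2 : 2 * X.card ≤ Fintype.card V) (hne : (X ∩ Y).Nonempty) :
    X = Y := by
  by_contra hXY
  have h4 : (X \ Y).Nonempty := by
    rw [nonempty_iff_ne_empty]
    intro h
    rw [sdiff_eq_empty_iff_subset] at h
    exact hXY (eq_of_subset_of_card_le h hc.ge)
  have h5 : (Y \ X).Nonempty := by
    rw [nonempty_iff_ne_empty]
    intro h
    rw [sdiff_eq_empty_iff_subset] at h
    exact hXY (eq_of_subset_of_card_le h hc.le).symm
  have h6 : (X ∪ Y) ≠ univ := by
    intro h
    have h7 := card_union_add_card_inter X Y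
    rw [h, card_univ] at h7
    have h8 := hne.card_pos
    omega
  have hXu : X ≠ univ := by
    intro h
    apply h6
    rw [h]
    exact eq_univ_of_forall fun x => mem_union_left _ (mem_univ x)
  have hYu : Y ≠ univ := by
    intro h
    apply h6
    rw [h]
    exact eq_univ_of_forall fun x => mem_union_right _ (mem_univ x)
  have a1 := submod src dst X Y
  have a2 := posimod src dst X Y
  have a3 := parity src dst X Y
  have b1 := h3 (X ∩ Y) hne (fun h => hXu (eq_univ_of_forall fun x => by
    have : x ∈ X ∩ Y := by rw [h]; exact mem_univ x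
    exact (mem_inter.mp this).1))
  have b2 := h3 (X ∪ Y) (hne.mono (inter_subset_left.trans subset_union_left)) h6
  have b3 := h3 (X \ Y) h4 (fun h => hXu (eq_univ_of_forall fun x => by
    have : x ∈ X \ Y := by rw [h]; exact mem_univ x
    exact (mem_sdiff.mp this).1))
  have b4 := h3 (Y \ X) h5 (fun h => hYu (eq_univ_of_forall fun x => by
    have : x ∈ Y \ X := by rw [h]; exact mem_univ x
    exact (mem_sdiff.mp this).1))
  omega

/-- the smallest sets with the minimum number of boundary edges do not cross -/
theorem no_cross_min (l : ℕ)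
    (hl : ∀ X : Finset V, X.Nonempty → X ≠ univ → l ≤ (boundary src dst X).card)
    (X Y : Finset V) (hX : (boundary src dst X).card = l) (hY : (boundary src dst Y).card = l)
    (hmin : ∀ Z : Finset V, Z.Nonempty → (boundary src dst Z).card = l → X.card ≤ Z.card)
    (hc : X.card = Y.card) (h2 : 2 * X.card ≤ Fintype.card V) (hne : (X ∩ Y).Nonempty) :
    X = Y := by
  by_contra hXY
  have h6 : (X ∪ Y) ≠ univ := by
    intro h
    have h7 := card_union_add_card_inter X Y
    rw [h, card_univ] at h7
    have h8 := hne.card_pos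
    omega
  have a1 := submod src dst X Y
  have hXu : X ≠ univ := by
    intro h
    apply h6
    rw [h]
    exact eq_univ_of_forall fun x => mem_union_left _ (mem_univ x)
  have b1 := hl (X ∩ Y) hne (fun h => hXu (eq_univ_of_forall fun x => by
    have : x ∈ X ∩ Y := by rw [h]; exact mem_univ x
    exact (mem_inter.mp this).1))
  have b2 := hl (X ∪ Y) (hne.mono (inter_subset_left.trans subset_union_left)) h6
  have b3 := hmin (X ∩ Y) hne (by omega)
  have b4 : X ∩ Y = X := eq_of_subset_of_card_le inter_subset_left b3
  have b5 : X ⊆ Y := inter_eq_left.mp b4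
  exact hXY (eq_of_subset_of_card_le b5 hc.ge)

/-- `X` is a block of the automorphism group -/
def IsBlock (src dst : E → V) (X : Finset V) : Prop :=
  ∀ (σ : Equiv.Perm V) (τ : Equiv.Perm E), IsAut src dst σ τ → (∃ x ∈ X, σ x ∈ X) →
    ∀ x, x ∈ X ↔ σ x ∈ X

theorem isBlock_of (X : Finset V)
    (h : ∀ Y : Finset V, (boundary src dst Y).card = (boundary src dst X).card →
      Y.card = X.card → (X ∩ Y).Nonempty → X = Y) : IsBlock src dst X := by
  intro σ τ hστ hx
  obtain ⟨x, hx, hx'⟩ := hx
  have h1 := h (X.image σ) (card_boundary_image hστ X) (card_image_of_injective _ σ.injective)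
    ⟨σ x, mem_inter.mpr ⟨hx', mem_image_of_mem _ hx⟩⟩
  intro y
  rw [← σ.injective.mem_finset_image (s := X), ← h1]

/-- the edges of the boundary at `u` -/
def bdAt (src dst : E → V) (X : Finset V) (u : V) : Finset E :=
  (boundary src dst X).filter (fun e => src e = u ∨ dst e = u)

theorem card_bdAt_sum (X : Finset V) :
    (boundary src dst X).card = ∑ u ∈ X, (bdAt src dst X u).card := by
  rw [card_eq_sum_card_fiberwise (f := fun e => if src e ∈ X then src e else dst e) (t := X)]
  · refine sum_congr rfl fun u hu => ?_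
    congr 1
    ext e
    simp only [bdAt, mem_filter, mem_boundary]
    constructor
    · rintro ⟨h1, h2⟩
      refine ⟨h1, ?_⟩
      split_ifs at h2 with h3
      · exact Or.inl h2
      · exact Or.inr h2
    · rintro ⟨h1, h2⟩
      refine ⟨h1, ?_⟩
      by_cases h3 : src e ∈ X
      · rw [if_pos h3]
        rcases h2 with h2 | h2
        · exact h2
        · exfalso
          apply h1
          rw [h2]
          exact ⟨fun _ => hu, fun _ => h3⟩
      · rw [if_neg h3]
        rcases h2 with h2 | h2
        · exfalso
          exact h3 (h2 ▸ hu)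
        · exact h2
  · intro e he
    have he' : e ∈ boundary src dst X := he
    rw [mem_boundary] at he'
    show (if src e ∈ X then src e else dst e) ∈ (X : Set V)
    by_cases h3 : src e ∈ X
    · rw [if_pos h3]
      exact h3
    · rw [if_neg h3]
      by_contra h4
      exact he' ⟨fun h => absurd h h3, fun h => absurd h h4⟩

theorem card_bdAt (hT : VertexTransitive src dst) (X : Finset V) (hb : IsBlock src dst X)
    {u v : V} (hu : u ∈ X) (hv : v ∈ X) : (bdAt src dst X u).card = (bdAt src dst X v).card := by
  obtain ⟨σ, τ, h, hσ⟩ := hT u v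
  have hX := hb σ τ h ⟨u, hu, hσ ▸ hv⟩
  refine card_equiv τ fun e => ?_
  simp only [bdAt, mem_filter, mem_boundary]
  have e1 : ∀ w, w = u ↔ σ w = v := fun w => by
    rw [← hσ]
    exact σ.injective.eq_iff.symm
  rcases h e with ⟨h1, h2⟩ | ⟨h1, h2⟩
  · rw [h1, h2, ← hX, ← hX, ← e1, ← e1]
  · rw [h1, h2, ← hX, ← hX, ← e1, ← e1]
    tauto

theorem block_mul (hT : VertexTransitive src dst) (X : Finset V) (hb : IsBlock src dst X)
    {u : V} (hu : u ∈ X) : (boundary src dst X).card = X.card * (bdAt src dst X u).card := by
  rw [card_bdAt_sum, sum_congr rfl (fun v hv => card_bdAt hT X hb hv hu), sum_const, smul_eq_mul]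

/-- all vertices have the same degree -/
theorem card_deg (hT : VertexTransitive src dst) (u v : V) :
    (boundary src dst {u}).card = (boundary src dst {v}).card := by
  obtain ⟨σ, τ, h, hσ⟩ := hT u v
  rw [← card_boundary_image h {u}, image_singleton, hσ]

/-- the degree of a vertex of a set of three vertices -/
theorem deg_three {a b c : V} (hab : a ≠ b) (hac : a ≠ c) (hbc : b ≠ c) :
    (boundary src dst {a}).card = (joining src dst a b).card + (joining src dst a c).card +
      (bdAt src dst {a, b, c} a).card := by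
  have h1 : ∀ (p : E → Prop) [DecidablePred p], (univ.filter p).card = ∑ e, if p e then 1 else 0 :=
    fun p _ => card_filter _ _
  have h2 : bdAt src dst {a, b, c} a = univ.filter (fun e => ¬ (src e ∈ ({a, b, c} : Finset V) ↔
      dst e ∈ ({a, b, c} : Finset V)) ∧ (src e = a ∨ dst e = a)) := by
    ext e
    simp [bdAt, boundary]
  rw [h2]
  unfold boundary joining
  rw [h1, h1, h1, h1, ← sum_add_distrib, ← sum_add_distrib]
  refine sum_congr rfl fun e _ => ?_
  simp only [mem_insert, mem_singleton]
  by_cases s1 : src e = a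
  · rw [s1]
    by_cases d1 : dst e = a
    · simp [d1, hab, hac]
    · by_cases d2 : dst e = b
      · rw [d2]
        simp [hab, hac, hab.symm, hac.symm, hbc, hbc.symm]
      · by_cases d3 : dst e = c
        · rw [d3]
          simp [hab, hac, hab.symm, hac.symm, hbc, hbc.symm]
        · simp [d1, d2, d3, hab, hac, hab.symm, hac.symm]
  · by_cases d1 : dst e = a
    · rw [d1]
      by_cases s2 : src e = b
      · rw [s2]
        simp [hab, hac, hab.symm, hac.symm, hbc, hbc.symm]
      · by_cases s3 : src e = c
        · rw [s3]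
          simp [hab, hac, hab.symm, hac.symm, hbc, hbc.symm]
        · simp [s1, s2, s3, hab, hac, hab.symm, hac.symm]
    · simp [s1, d1]

/-- the degree of a vertex of a set of two vertices -/
theorem deg_two {a b : V} (hab : a ≠ b) :
    (boundary src dst {a}).card = (joining src dst a b).card +
      (bdAt src dst {a, b} a).card := by
  have h1 : ∀ (p : E → Prop) [DecidablePred p], (univ.filter p).card = ∑ e, if p e then 1 else 0 :=
    fun p _ => card_filter _ _
  have h2 : bdAt src dst {a, b} a = univ.filter (fun e => ¬ (src e ∈ ({a, b} : Finset V) ↔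
      dst e ∈ ({a, b} : Finset V)) ∧ (src e = a ∨ dst e = a)) := by
    ext e
    simp [bdAt, boundary]
  rw [h2]
  unfold boundary joining
  rw [h1, h1, h1, ← sum_add_distrib]
  refine sum_congr rfl fun e _ => ?_
  simp only [mem_insert, mem_singleton]
  by_cases s1 : src e = a
  · rw [s1]
    by_cases d1 : dst e = a
    · simp [d1, hab]
    · by_cases d2 : dst e = b
      · rw [d2]
        simp [hab, hab.symm]
      · simp [d1, d2, hab]
  · by_cases d1 : dst e = a
    · rw [d1]
      by_cases s2 : src e = b
      · rw [s2]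
        simp [hab, hab.symm]
      · simp [s1, s2, hab]
    · simp [s1, d1]

theorem joining_comm (a b : V) : joining src dst a b = joining src dst b a := by
  ext e
  simp only [joining, mem_filter, mem_univ, true_and]
  tauto

/-- a block with three vertices and three boundary edges -/
theorem triangle_block (hT : VertexTransitive src dst) (X : Finset V) (hb : IsBlock src dst X)
    (hX : (boundary src dst X).card = 3) (hc : X.card = 3) :
    ∃ m : ℕ, ∃ a b c, a ≠ b ∧ a ≠ c ∧ b ≠ c ∧ X = {a, b, c} ∧
      (joining src dst a b).card = m ∧ (joining src dst a c).card = m ∧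
      (joining src dst b c).card = m ∧ (∀ x, (boundary src dst {x}).card = 2 * m + 1) := by
  obtain ⟨a, b, c, hab, hac, hbc, rfl⟩ := card_eq_three.mp hc
  have e1 := deg_three (src := src) (dst := dst) hab hac hbc
  have e2 := deg_three (src := src) (dst := dst) hab.symm hbc hac
  have e3 := deg_three (src := src) (dst := dst) hac.symm hbc.symm hab
  have s1 : ({b, a, c} : Finset V) = {a, b, c} := by
    ext x
    simp only [mem_insert, mem_singleton]
    tauto
  have s2 : ({c, a, b} : Finset V) = {a, b, c} := by
    ext x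
    simp only [mem_insert, mem_singleton]
    tauto
  rw [s1] at e2
  rw [s2] at e3
  have ha : a ∈ ({a, b, c} : Finset V) := by simp
  have hb' : b ∈ ({a, b, c} : Finset V) := by simp
  have hc' : c ∈ ({a, b, c} : Finset V) := by simp
  have t1 := block_mul hT _ hb ha
  have t2 := card_bdAt hT _ hb hb' ha
  have t3 := card_bdAt hT _ hb hc' ha
  have d1 := card_deg hT b a
  have d2 := card_deg hT c a
  rw [joining_comm b a] at e2
  rw [joining_comm c a, joining_comm c b] at e3
  rw [hX, hc] at t1
  have t4 : (bdAt src dst {a, b, c} a).card = 1 := by omega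
  refine ⟨(joining src dst a b).card, a, b, c, hab, hac, hbc, rfl, rfl, by omega, by omega,
    fun x => ?_⟩
  rw [card_deg hT x a]
  omega

end cross

end Pool.Agent.Helper151_VT
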