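import Pool.Agent.Helper151_VT.Main

set_option autoImplicit false
set_option linter.unusedSectionVars false

/-! # Edge-transitive multigraphs -/

namespace Pool.Agent.Helper151_VT

open Finset Pool.Agent.TH676.Z Pool.Agent.Y335.FL

variable {V E : Type} [Fintype V] [DecidableEq V] [Fintype E] {src dst : E → V}

/-- a block with a boundary contains no edge -/
theorem no_inner (hE : EdgeTransitive src dst) {X : Finset V} (hb : IsBlock src dst X)
    (hne : (boundary src dst X).Nonempty) (e : E) (h1 : src e ∈ X) (h2 : dst e ∈ X) : False := by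
  obtain ⟨f, hf⟩ := hne
  obtain ⟨σ, τ, h, hτ⟩ := hE e f
  rw [mem_boundary] at hf
  apply hf
  rcases h e with ⟨p, q⟩ | ⟨p, q⟩
  · rw [hτ] at p q
    rw [p, q]
    constructor
    · intro h3
      exact (hb σ τ h ⟨_, h1, h3⟩ _).mp h2
    · intro h3
      exact (hb σ τ h ⟨_, h2, h3⟩ _).mp h1
  · rw [hτ] at p q
    rw [p, q]
    constructor
    · intro h3
      exact (hb σ τ h ⟨_, h2, h3⟩ _).mp h1
    · intro h3
      exact (hb σ τ h ⟨_, h1, h3⟩ _).mp h2

theorem block_degrees (hE : EdgeTransitive src dst) {X : Finset V} (hb : IsBlock src dst X)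
    (hne : (boundary src dst X).Nonempty) {d : ℕ} (hd : ∀ x, d ≤ (boundary src dst {x}).card) :
    X.card * d ≤ (boundary src dst X).card := by
  rw [card_bdAt_sum, ← smul_eq_mul, ← sum_const]
  refine sum_le_sum fun u hu => (hd u).trans (card_le_card ?_)
  intro e he
  rw [mem_boundary, mem_singleton, mem_singleton] at he
  rw [bdAt, mem_filter, mem_boundary]
  have h1 := no_inner hE hb hne e
  by_cases h2 : src e = u
  · refine ⟨fun h => h1 (h2 ▸ hu) (h.mp (h2 ▸ hu)), Or.inl h2⟩
  · have h3 : dst e = u := by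
      by_contra h3
      exact he ⟨fun h => absurd h h2, fun h => absurd h h3⟩
    refine ⟨fun h => h1 (h.mpr (h3 ▸ hu)) (h3 ▸ hu), Or.inr h3⟩

/-- the edge connectivity of an edge-transitive multigraph is the minimum degree -/
theorem edge_conn (hE : EdgeTransitive src dst)
    (hconn : ∀ X : Finset V, X.Nonempty → X ≠ univ → 1 ≤ (boundary src dst X).card) {d : ℕ}
    (hdeg : ∀ x, d ≤ (boundary src dst {x}).card) :
    ∀ X : Finset V, X.Nonempty → X ≠ univ → d ≤ (boundary src dst X).card := by
  intro X0 h0 h0'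
  obtain ⟨S, hS⟩ : ∃ S : Finset (Finset V), S = univ.filter (fun X => X.Nonempty ∧ X ≠ univ) :=
    ⟨_, rfl⟩
  have hmemS : ∀ X, X ∈ S ↔ X.Nonempty ∧ X ≠ univ := fun X => by rw [hS]; simp
  obtain ⟨X1, hX1, hmin1⟩ := exists_min_image S (fun X => (boundary src dst X).card)
    ⟨X0, (hmemS X0).mpr ⟨h0, h0'⟩⟩
  obtain ⟨l, hl⟩ : ∃ l, l = (boundary src dst X1).card := ⟨_, rfl⟩
  obtain ⟨X, hX, hmin⟩ := exists_min_image (S.filter (fun X => (boundary src dst X).card = l))
    (fun X => X.card) ⟨X1, mem_filter.mpr ⟨hX1, hl.symm⟩⟩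
  rw [mem_filter, hmemS] at hX
  obtain ⟨⟨hXn, hXu⟩, hXl⟩ := hX
  have hlmin : ∀ Z : Finset V, Z.Nonempty → Z ≠ univ → l ≤ (boundary src dst Z).card :=
    fun Z a b => by
      rw [hl]
      exact hmin1 Z ((hmemS Z).mpr ⟨a, b⟩)
  have hl1 : 1 ≤ l := by
    rw [← hXl]
    exact hconn X hXn hXu
  have hmin' : ∀ Z : Finset V, Z.Nonempty → (boundary src dst Z).card = l → X.card ≤ Z.card := by
    intro Z a b
    apply hmin Z
    rw [mem_filter, hmemS]
    refine ⟨⟨a, ?_⟩, b⟩
    rintro rfl
    simp [boundary] at b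
    omega
  have h2 : 2 * X.card ≤ Fintype.card V := by
    have h5 := hmin' Xᶜ (by
      rw [nonempty_iff_ne_empty]
      intro h
      exact hXu (compl_eq_empty_iff X |>.mp h)) (by rw [boundary_compl]; exact hXl)
    rw [card_compl] at h5
    have h6 := card_le_univ X
    have h7 := hXn.card_pos
    omega
  have hb : IsBlock src dst X := isBlock_of X fun Y a b c =>
    no_cross_min l hlmin X Y hXl (a.trans hXl) hmin' b.symm h2 c
  have h4 := block_degrees hE hb (card_pos.mp (by omega)) hdeg
  rw [hXl] at h4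
  have h6 := hXn.card_pos
  calc d = 1 * d := (one_mul d).symm
    _ ≤ X.card * d := Nat.mul_le_mul_right d h6
    _ ≤ l := h4
    _ ≤ _ := hlmin X0 h0 h0'

/-- the cuts with three edges are stars -/
theorem edge_stars (hE : EdgeTransitive src dst)
    (h3 : ∀ X : Finset V, X.Nonempty → X ≠ univ → 3 ≤ (boundary src dst X).card)
    (hdeg : ∀ x, 3 ≤ (boundary src dst {x}).card) (X : Finset V)
    (hX : (boundary src dst X).card = 3) : X.card = 1 ∨ Xᶜ.card = 1 := by
  have hne : ∀ X : Finset V, (boundary src dst X).card = 3 → 0 < X.card := by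
    intro X hX
    rw [card_pos, nonempty_iff_ne_empty]
    intro h
    rw [h, boundary_empty] at hX
    simp at hX
  have hsmall : ∀ X : Finset V, (boundary src dst X).card = 3 →
      2 * X.card ≤ Fintype.card V → X.card = 1 := by
    intro X hX h2
    have hb : IsBlock src dst X := isBlock_of X fun Y a b c =>
      no_cross3 h3 X Y hX (a.trans hX) b.symm h2 c
    have h4 := block_degrees hE hb (card_pos.mp (by omega)) hdeg
    have := hne X hX
    omega
  rcases Nat.lt_or_ge (Fintype.card V) (2 * X.card) with h | h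
  · right
    apply hsmall
    · rw [boundary_compl]
      exact hX
    · rw [card_compl]
      omega
  · left
    exact hsmall X hX h

/-- a short circuit in an edge-transitive connected multigraph -/
theorem edge_short [DecidableEq E] (hloc : St_local) (hE : EdgeTransitive src dst)
    (hconn : ∀ X : Finset V, X.Nonempty → X ≠ univ → 1 ≤ (boundary src dst X).card)
    {n : ℕ} (hn : n ≤ 9) {v : Fin (n + 2) → V} {ed : Fin (n + 2) → E}
    (hc : IsCircuit src dst v ed) : FlowOn src dst ∅ ∅ := by
  choose σ τ hστ hσ using fun f : E => hE (ed 0) f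
  refine cuts_fam hloc (ι := E) (fun f => univ.image (τ f ∘ ed))
    (fun f => ⟨n, σ f ∘ v, τ f ∘ ed, hn, hc.map (hστ f), rfl⟩) ?_
  intro X h1 h2 hdis
  exfalso
  obtain ⟨f, hf⟩ := card_pos.mp (hconn X h1 h2)
  refine disjoint_left.mp hdis hf (mem_biUnion.mpr ⟨f, mem_univ f, mem_image.mpr
    ⟨0, mem_univ 0, hσ f⟩⟩)

/-- not regular of degree three -/
theorem edge_irregular [DecidableEq E] (hloc : St_local) (hE : EdgeTransitive src dst)
    (h3 : ∀ X : Finset V, X.Nonempty → X ≠ univ → 3 ≤ (boundary src dst X).card)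
    (hst : ∀ X : Finset V, (boundary src dst X).card = 3 → X.card = 1 ∨ Xᶜ.card = 1)
    (x0 : V) (hx0 : 4 ≤ (boundary src dst {x0}).card) : FlowOn src dst ∅ ∅ := by
  -- no edge joins two vertices of degree three
  have hno : ∀ e, (boundary src dst {src e}).card = 3 → (boundary src dst {dst e}).card = 3 →
      False := by
    intro e h4 h5
    obtain ⟨f, hf⟩ := card_pos.mp (show 0 < (boundary src dst {x0}).card by omega)
    obtain ⟨σ, τ, h, hτ⟩ := hE e f
    have h6 : ∀ x, (boundary src dst {σ x}).card = (boundary src dst {x}).card := fun x => by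
      rw [← card_boundary_image h {x}, image_singleton]
    rw [mem_boundary, mem_singleton, mem_singleton] at hf
    have h7 : src f = x0 ∨ dst f = x0 := by tauto
    rcases h e with ⟨p, q⟩ | ⟨p, q⟩ <;> rw [hτ] at p q <;> rcases h7 with h8 | h8
    · rw [← h8, p, h6] at hx0
      omega
    · rw [← h8, q, h6] at hx0
      omega
    · rw [← h8, p, h6] at hx0
      omega
    · rw [← h8, q, h6] at hx0
      omega
  have hstar : ∀ X : Finset V, (boundary src dst X).card = 3 →
      ∃ u, boundary src dst X = boundary src dst {u} := by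
    intro X h
    rcases hst X h with h | h
    · obtain ⟨u, hu⟩ := card_eq_one.mp h
      exact ⟨u, by rw [hu]⟩
    · obtain ⟨u, hu⟩ := card_eq_one.mp h
      exact ⟨u, by rw [← boundary_compl, hu]⟩
  have hend : ∀ e u, e ∈ boundary src dst {u} → src e = u ∨ dst e = u := by
    intro e u he
    rw [mem_boundary, mem_singleton, mem_singleton] at he
    tauto
  have hempty : (univ : Finset (Fin 0)).biUnion (fun _ => (∅ : Finset E)) = ∅ := by simp
  refine hloc V E src dst 0 (fun _ => ∅) (fun i => i.elim0) (fun i => i.elim0)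
    (fun X a b _ => h3 X a b) ?_
  intro X _ hcd
  refine ⟨0, Or.inr ?_⟩
  have hX := (hcd 0).1
  rw [crs_eq] at hX
  obtain ⟨u, hu⟩ := hstar _ hX
  have hu3 : (boundary src dst {u}).card = 3 := by rw [← hu]; exact hX
  obtain ⟨e, he, e', he', hee⟩ := one_lt_card.mp (show 1 < (boundary src dst {u}).card by omega)
  refine ⟨e, ?_, e', ?_, hee, ?_⟩
  · show e ∈ boundary src dst (X 0)
    rw [hu]
    exact he
  · show e' ∈ boundary src dst (X 0)
    rw [hu]
    exact he'
  · intro Y hY _ hmem
    show boundary src dst Y = boundary src dst (X 0)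
    have hY' : (boundary src dst Y).card = 3 := hY
    have hmem' : e ∈ boundary src dst Y ∨ e' ∈ boundary src dst Y := hmem
    obtain ⟨w, hw⟩ := hstar Y hY'
    have hw3 : (boundary src dst {w}).card = 3 := by rw [← hw]; exact hY'
    rw [hu, hw]
    rw [hw] at hmem'
    have key : ∀ f, f ∈ boundary src dst {u} → f ∈ boundary src dst {w} → w = u := by
      intro f hf hf'
      rcases hend f u hf with a | a <;> rcases hend f w hf' with b | b
      · exact b.symm.trans a
      · exact (hno f (by rw [a]; exact hu3) (by rw [b]; exact hw3)).elim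
      · exact (hno f (by rw [b]; exact hw3) (by rw [a]; exact hu3)).elim
      · exact b.symm.trans a
    rcases hmem' with h | h
    · rw [key e he h]
    · rw [key e' he' h]

/-- the reduction for edge-transitive multigraphs -/
theorem edge_reduction [DecidableEq E] (hloc : St_local) (hE : EdgeTransitive src dst)
    (hconn : ∀ X : Finset V, X.Nonempty → X ≠ univ → 1 ≤ (boundary src dst X).card)
    (hdeg : ∀ x, 3 ≤ (boundary src dst {x}).card) (hnf : ¬ FlowOn src dst ∅ ∅) :
    Residual src dst := by
  have h3 := edge_conn hE hconn hdeg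
  have hst := edge_stars hE h3 hdeg
  refine ⟨fun x => ?_, h3, hst, fun n v ed hc => ?_⟩
  · by_contra h
    have := hdeg x
    exact hnf (edge_irregular hloc hE h3 hst x (by omega))
  · by_contra h
    exact hnf (edge_short hloc hE hconn (by omega) hc)

end Pool.Agent.Helper151_VT
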