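import Pool.Agent.Helper151_VT.Quot
import Pool.Agent.Y335.FL.CircEx
import Pool.Agent.Y335.FL.Trail

set_option autoImplicit false
set_option linter.unusedSectionVars false

/-! # Flows in even edge sets, and in cubic multigraphs with three disjoint perfect matchings -/

namespace Pool.Agent.Helper151_VT

open Finset Pool.Agent.TH676.Z Pool.Agent.Y335.FL

variable {V E : Type} [Fintype V] [DecidableEq V] [Fintype E] [DecidableEq E] {src dst : E → V}

theorem mem_star {e : E} (he : src e ≠ dst e) (x : V) :
    e ∈ boundary src dst {x} ↔ (src e = x ∨ dst e = x) := by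
  rw [mem_boundary, mem_singleton, mem_singleton]
  constructor
  · intro h
    by_contra h2
    push Not at h2
    exact h ⟨fun h3 => absurd h3 h2.1, fun h3 => absurd h3 h2.2⟩
  · intro h h2
    have h3 : src e = x ∧ dst e = x := by
      rcases h with h | h
      · exact ⟨h, h2.mp h⟩
      · exact ⟨h2.mpr h, h⟩
    exact he (h3.1.trans h3.2.symm)

theorem circ_succ_ne {n : ℕ} {v : Fin (n + 2) → V} (hv : Function.Injective v)
    (i : Fin (n + 2)) : v i ≠ v (i + 1) := by
  intro h
  have h1 := hv h
  have h2 : i + 0 = i + 1 := by rw [add_zero]; exact h1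
  have h3 := congrArg Fin.val (add_left_cancel h2)
  simp at h3

theorem circ_even {n : ℕ} {v : Fin (n + 2) → V} {ed : Fin (n + 2) → E}
    (h : IsCircuit src dst v ed) (x : V) :
    Even ((univ.image ed) ∩ boundary src dst {x}).card := by
  have h1 : (univ.image ed) ∩ boundary src dst {x} =
      (univ.filter (fun i => ed i ∈ boundary src dst {x})).image ed := by
    ext e
    simp only [mem_inter, mem_image, mem_univ, true_and, mem_filter]
    constructor
    · rintro ⟨⟨i, rfl⟩, h2⟩
      exact ⟨i, h2, rfl⟩
    · rintro ⟨i, h2, rfl⟩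
      exact ⟨⟨i, rfl⟩, h2⟩
  have hne : ∀ i, src (ed i) ≠ dst (ed i) := by
    intro i
    have h3 := circ_succ_ne h.1 i
    rcases h.2.2 i with ⟨p, q⟩ | ⟨p, q⟩
    · rw [p, q]
      exact h3
    · rw [p, q]
      exact h3.symm
  have h2 : ∀ i, (if ed i ∈ boundary src dst {x} then 1 else 0) =
      (if v i = x then 1 else 0) + (if v (i + 1) = x then 1 else 0) := by
    intro i
    have h3 := circ_succ_ne h.1 i
    have h4 : ed i ∈ boundary src dst {x} ↔ (v i = x ∨ v (i + 1) = x) := by
      rw [mem_star (hne i)]
      rcases h.2.2 i with ⟨p, q⟩ | ⟨p, q⟩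
      · rw [p, q]
      · rw [p, q]
        exact or_comm
    by_cases h5 : v i = x
    · have h6 : v (i + 1) ≠ x := fun h6 => h3 (h5.trans h6.symm)
      rw [if_pos (h4.mpr (Or.inl h5)), if_pos h5, if_neg h6]
    · by_cases h6 : v (i + 1) = x
      · rw [if_pos (h4.mpr (Or.inr h6)), if_neg h5, if_pos h6]
      · rw [if_neg (fun h7 => (h4.mp h7).elim h5 h6), if_neg h5, if_neg h6]
  rw [h1, card_image_of_injective _ h.2.1, card_filter, sum_congr rfl (fun i _ => h2 i),
    sum_add_distrib]
  have h3 : ∑ i, (if v (i + 1) = x then 1 else 0) = ∑ i, (if v i = x then 1 else 0) :=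
    Equiv.sum_comp (Equiv.addRight (1 : Fin (n + 2))) (fun i => if v i = x then 1 else 0)
  rw [h3]
  exact ⟨_, rfl⟩

/-- an even set of proper edges is the support of a flow with values `0, 1, -1` -/
theorem even_flow (k : ℕ) : ∀ S : Finset E, S.card = k → (∀ e ∈ S, src e ≠ dst e) →
    (∀ x, Even (S ∩ boundary src dst {x}).card) →
    ∃ z : E → ZMod 5, (∀ v, bd src dst z v = 0) ∧ (∀ e ∈ S, z e = 1 ∨ z e = -1) ∧
      ∀ e, e ∉ S → z e = 0 := by
  induction k using Nat.strong_induction_on with
  | _ k ih =>
    intro S hS hl hev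
    rcases S.eq_empty_or_nonempty with rfl | hne
    · exact ⟨0, fun v => by simp [bd], fun e he => absurd he (notMem_empty _), fun e _ => rfl⟩
    · obtain ⟨n, v, ed, hv, hed, hJ, hmem⟩ := circEx V E src dst S hne hl (by
        intro x e he hx
        have h1 : e ∈ S ∩ boundary src dst {x} := mem_inter.mpr ⟨he, (mem_star (hl e he) x).mpr hx⟩
        have h2 := hev x
        have h3 : 1 < (S ∩ boundary src dst {x}).card := by
          have h4 := card_pos.mpr ⟨e, h1⟩
          rcases h2 with ⟨r, hr⟩
          omega
        obtain ⟨e', he', hne'⟩ := exists_mem_ne h3 e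
        rw [mem_inter] at he'
        exact ⟨e', he'.1, hne', (mem_star (hl e' he'.1) x).mp he'.2⟩)
      have hc : IsCircuit src dst v ed := ⟨hv, hed, hJ⟩
      have hsub : univ.image ed ⊆ S := by
        intro e he
        obtain ⟨i, -, rfl⟩ := mem_image.mp he
        exact hmem i
      obtain ⟨z', hz1, hz2, hz3⟩ := ih (S \ univ.image ed).card (by
        rw [← hS]
        apply card_lt_card
        refine ⟨sdiff_subset, fun h => ?_⟩
        have h1 := h (hmem 0)
        rw [mem_sdiff] at h1
        exact h1.2 (mem_image_of_mem _ (mem_univ _))) (S \ univ.image ed) rfl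
        (fun e he => hl e (mem_sdiff.mp he).1) (by
        intro x
        have h1 := hev x
        have h2 := circ_even hc x
        have h3 : (S ∩ boundary src dst {x}).card =
            ((S \ univ.image ed) ∩ boundary src dst {x}).card +
              ((univ.image ed) ∩ boundary src dst {x}).card := by
          rw [← card_union_of_disjoint]
          · congr 1
            ext e
            simp only [mem_inter, mem_union, mem_sdiff]
            constructor
            · rintro ⟨p, q⟩
              by_cases h : e ∈ univ.image ed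
              · exact Or.inr ⟨h, q⟩
              · exact Or.inl ⟨⟨p, h⟩, q⟩
            · rintro (⟨⟨p, _⟩, q⟩ | ⟨p, q⟩)
              · exact ⟨p, q⟩
              · exact ⟨hsub p, q⟩
          · rw [disjoint_left]
            intro e h4 h5
            rw [mem_inter, mem_sdiff] at h4
            rw [mem_inter] at h5
            exact h4.1.2 h5.1
        rw [h3, Nat.even_add] at h1
        exact h1.mpr h2)
      obtain ⟨w, hw1, hw2, hw3⟩ := circ_flow hc
      refine ⟨z' + w, fun x => ?_, fun e he => ?_, fun e he => ?_⟩
      · rw [Three.bd_add, hz1, hw1, add_zero]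
      · by_cases h : e ∈ univ.image ed
        · have h1 : e ∉ S \ univ.image ed := fun h2 => (mem_sdiff.mp h2).2 h
          have h2 : w e ≠ 0 := (hw3 e).mpr h
          rw [Pi.add_apply, hz3 e h1, zero_add]
          exact (hw2 e).resolve_left h2
        · have h1 : w e = 0 := by
            by_contra h2
            exact h ((hw3 e).mp h2)
          rw [Pi.add_apply, h1, add_zero]
          exact hz2 e (mem_sdiff.mpr ⟨he, h⟩)
      · have h : e ∉ univ.image ed := fun h => he (hsub h)
        have h1 : w e = 0 := by
          by_contra h2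
          exact h ((hw3 e).mp h2)
        rw [Pi.add_apply, h1, add_zero]
        exact hz3 e (fun h2 => he (mem_sdiff.mp h2).1)

/-- the values on loops can be changed -/
theorem flow_of_proper (f : E → ZMod 5) (h1 : ∀ v, bd src dst f v = 0)
    (h2 : ∀ e, src e ≠ dst e → f e ≠ 0) : FlowOn src dst ∅ ∅ := by
  refine Trail.flowOn_loops src dst (F := univ.filter (fun e => src e = dst e)) (X := ∅)
    (fun e he => (mem_filter.mp he).2) ⟨f, h1, fun e he => absurd he (notMem_empty _),
      fun e _ he => h2 e fun h => he ?_⟩
  rw [union_empty, mem_filter]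
  exact ⟨mem_univ e, h⟩

theorem star_proper (x : V) {e : E} (he : e ∈ boundary src dst {x}) : src e ≠ dst e := by
  intro h
  rw [mem_boundary, h] at he
  exact he Iff.rfl

/-- all degrees are even -/
theorem flow_of_even (h : ∀ x, Even (boundary src dst {x}).card) : FlowOn src dst ∅ ∅ := by
  obtain ⟨z, h1, h2, -⟩ := even_flow (src := src) (dst := dst) _
    (univ.filter (fun e => src e ≠ dst e)) rfl (fun e he => (mem_filter.mp he).2) (by
      intro x
      have h3 : (univ.filter (fun e => src e ≠ dst e)) ∩ boundary src dst {x} =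
          boundary src dst {x} := by
        apply inter_eq_right.mpr
        intro e he
        exact mem_filter.mpr ⟨mem_univ e, star_proper x he⟩
      rw [h3]
      exact h x)
  refine flow_of_proper z h1 fun e he => ?_
  rcases h2 e (mem_filter.mpr ⟨mem_univ e, he⟩) with h3 | h3 <;> rw [h3] <;> decide

/-- a cubic multigraph whose proper edges are the union of three disjoint perfect matchings -/
theorem flow_of_matchings (h3 : ∀ x, (boundary src dst {x}).card = 3) (N J : Finset E)
    (hN : ∀ e ∈ N, src e ≠ dst e) (hN2 : ∀ x, (N ∩ boundary src dst {x}).card = 2) (hJN : J ⊆ N)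
    (hJ : ∀ x, (J ∩ boundary src dst {x}).card = 1) : FlowOn src dst ∅ ∅ := by
  obtain ⟨P, hP⟩ : ∃ P : Finset E, P = univ.filter (fun e => src e ≠ dst e) := ⟨_, rfl⟩
  have hPs : ∀ x, P ∩ boundary src dst {x} = boundary src dst {x} := by
    intro x
    apply inter_eq_right.mpr
    intro e he
    rw [hP]
    exact mem_filter.mpr ⟨mem_univ e, star_proper x he⟩
  have hNP : N ⊆ P := fun e he => by
    rw [hP]
    exact mem_filter.mpr ⟨mem_univ e, hN e he⟩
  -- the complement of `N` and `J`
  have hsd : ∀ (A B : Finset E), B ⊆ A → ∀ x, ((A \ B) ∩ boundary src dst {x}).card +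
      (B ∩ boundary src dst {x}).card = (A ∩ boundary src dst {x}).card := by
    intro A B hBA x
    rw [← card_union_of_disjoint]
    · congr 1
      ext e
      simp only [mem_inter, mem_union, mem_sdiff]
      constructor
      · rintro (⟨⟨p, _⟩, q⟩ | ⟨p, q⟩)
        · exact ⟨p, q⟩
        · exact ⟨hBA p, q⟩
      · rintro ⟨p, q⟩
        by_cases h : e ∈ B
        · exact Or.inr ⟨h, q⟩
        · exact Or.inl ⟨⟨p, h⟩, q⟩
    · rw [disjoint_left]
      intro e h4 h5
      rw [mem_inter, mem_sdiff] at h4
      rw [mem_inter] at h5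
      exact h4.1.2 h5.1
  obtain ⟨z1, a1, a2, a3⟩ := even_flow (src := src) (dst := dst) _ N rfl hN (fun x => by
    rw [hN2]
    exact even_two)
  obtain ⟨z2, b1, b2, b3⟩ := even_flow (src := src) (dst := dst) _ (P \ J) rfl (fun e he => by
    have := (mem_sdiff.mp he).1
    rw [hP] at this
    exact (mem_filter.mp this).2) (fun x => by
    have h4 := hsd P J (hJN.trans hNP) x
    rw [hPs, hJ, h3] at h4
    have h5 : ((P \ J) ∩ boundary src dst {x}).card = 2 := by omega
    rw [h5]
    exact even_two)
  refine flow_of_proper (fun e => 2 * z1 e + z2 e) (fun x => ?_) fun e he => ?_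
  · have h4 : (fun e => 2 * z1 e + z2 e) = (z1 + z1) + z2 := by
      funext e
      simp only [Pi.add_apply]
      ring
    rw [h4, Three.bd_add, Three.bd_add, a1, b1]
    simp
  · have heP : e ∈ P := by
      rw [hP]
      exact mem_filter.mpr ⟨mem_univ e, he⟩
    by_cases hj : e ∈ J
    · rw [b3 e (fun h => (mem_sdiff.mp h).2 hj), add_zero]
      rcases a2 e (hJN hj) with h | h <;> rw [h] <;> decide
    · have h5 := b2 e (mem_sdiff.mpr ⟨heP, hj⟩)
      by_cases hn : e ∈ N
      · rcases a2 e hn with h | h <;> rcases h5 with h6 | h6 <;> rw [h, h6] <;> decide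
      · rw [a3 e hn, mul_zero, zero_add]
        rcases h5 with h6 | h6 <;> rw [h6] <;> decide

end Pool.Agent.Helper151_VT
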