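import Pool.Agent.Helper151_VT.Even

set_option autoImplicit false
set_option linter.unusedSectionVars false

/-! # Two-factors whose components have even order -/

namespace Pool.Agent.Helper151_VT

open Finset Pool.Agent.TH676.Z Pool.Agent.Y335.FL

variable {V E : Type} [Fintype V] [DecidableEq V] [Fintype E] [DecidableEq E] {src dst : E → V}

theorem mem_component (N : Finset E) (x y : V) :
    y ∈ component src dst N x ↔ Linked src dst N x y := by
  classical
  simp [component]

/-- the vectors which are boundaries (modulo two) of functions on `N` -/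
def Bd2 (src dst : E → V) (N : Finset E) (g : V → ZMod 2) : Prop :=
  ∃ h : E → ZMod 2, (∀ e, e ∉ N → h e = 0) ∧
    ∀ x, ∑ e ∈ boundary src dst {x}, h e = g x

theorem Bd2.zero (N : Finset E) : Bd2 src dst N 0 :=
  ⟨0, fun _ _ => rfl, fun _ => by simp⟩

theorem Bd2.add {N : Finset E} {g g' : V → ZMod 2} (h : Bd2 src dst N g)
    (h' : Bd2 src dst N g') : Bd2 src dst N (g + g') := by
  obtain ⟨a, h1, h2⟩ := h
  obtain ⟨b, h3, h4⟩ := h'
  refine ⟨a + b, fun e he => by rw [Pi.add_apply, h1 e he, h3 e he, add_zero], fun x => ?_⟩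
  simp only [Pi.add_apply]
  rw [sum_add_distrib, h2, h4]

theorem Bd2.sum {N : Finset E} {ι : Type} (s : Finset ι) (g : ι → V → ZMod 2)
    (h : ∀ i ∈ s, Bd2 src dst N (g i)) : Bd2 src dst N (∑ i ∈ s, g i) := by
  classical
  induction s using Finset.induction_on with
  | empty => simpa using Bd2.zero N
  | insert a s ha ih =>
    rw [sum_insert ha]
    exact (h a (mem_insert_self a s)).add (ih fun i hi => h i (mem_insert_of_mem hi))

theorem two_zero (g : V → ZMod 2) : g + g = 0 := by
  funext x
  rw [Pi.add_apply, Pi.zero_apply]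
  have : ∀ a : ZMod 2, a + a = 0 := by decide
  exact this _

theorem Bd2.linked {N : Finset E} (hN : ∀ e ∈ N, src e ≠ dst e) {x y : V}
    (h : Linked src dst N x y) : Bd2 src dst N (Pi.single x 1 + Pi.single y 1) := by
  induction h with
  | rel a b hab =>
    obtain ⟨e, he, rfl, rfl⟩ := hab
    refine ⟨Pi.single e 1, fun f hf => ?_, fun x => ?_⟩
    · rw [Pi.single_apply, if_neg]
      rintro rfl
      exact hf he
    · simp only [Pi.single_apply, Pi.add_apply]
      rw [sum_ite_eq']
      have h1 := hN e he
      by_cases h2 : src e = x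
      · have h3 : dst e ≠ x := fun h3 => h1 (h2.trans h3.symm)
        rw [if_pos ((mem_star h1 x).mpr (Or.inl h2)), if_pos h2.symm, if_neg (fun h => h3 h.symm),
          add_zero]
      · by_cases h3 : dst e = x
        · rw [if_pos ((mem_star h1 x).mpr (Or.inr h3)), if_neg (fun h => h2 h.symm),
            if_pos h3.symm, zero_add]
        · rw [if_neg (fun h => ((mem_star h1 x).mp h).elim h2 h3), if_neg (fun h => h2 h.symm),
            if_neg (fun h => h3 h.symm), add_zero]
  | refl a =>
    rw [two_zero]
    exact Bd2.zero N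
  | symm a b _ ih =>
    rw [add_comm]
    exact ih
  | trans a b c _ _ ih1 ih2 =>
    have h1 : (Pi.single a 1 + Pi.single c 1 : V → ZMod 2) =
        (Pi.single a 1 + Pi.single b 1) + (Pi.single b 1 + Pi.single c 1) := by
      rw [add_assoc, ← add_assoc (Pi.single b 1) (Pi.single b 1), two_zero, zero_add]
    rw [h1]
    exact ih1.add ih2

/-- if all components of the two-factor `N` have even order then `N` contains a perfect matching -/
theorem matching_of_even {N : Finset E} (hN : ∀ e ∈ N, src e ≠ dst e)
    (hN2 : ∀ x, (N ∩ boundary src dst {x}).card = 2)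
    (hev : ∀ x, Even (component src dst N x).card) :
    ∃ J, J ⊆ N ∧ ∀ x, (J ∩ boundary src dst {x}).card = 1 := by
  classical
  obtain ⟨s, hs⟩ : ∃ s : Setoid V, ∀ x y, s x y ↔ Linked src dst N x y :=
    ⟨⟨Linked src dst N, Relation.EqvGen.is_equivalence _⟩, fun x y => Iff.rfl⟩
  obtain ⟨rep, hrep⟩ : ∃ rep : V → V, rep = fun x => Quotient.out (Quotient.mk s x) := ⟨_, rfl⟩
  have hrep1 : ∀ x, Linked src dst N (rep x) x := by
    intro x
    rw [← hs, hrep]
    exact Quotient.mk_out x
  have hrep2 : ∀ x y, Linked src dst N x y → rep x = rep y := by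
    intro x y h
    rw [hrep]
    dsimp only
    rw [Quotient.sound (s := s) ((hs x y).mpr h)]
  have hsum : Bd2 src dst N (∑ y : V, (Pi.single y 1 + Pi.single (rep y) 1)) :=
    Bd2.sum univ _ fun y _ => by
      rw [add_comm]
      exact Bd2.linked hN (hrep1 y)
  have hone : (∑ y : V, (Pi.single y 1 + Pi.single (rep y) 1) : V → ZMod 2) = fun _ => 1 := by
    funext x
    rw [Finset.sum_apply]
    simp only [Pi.add_apply, Pi.single_apply]
    rw [sum_add_distrib, sum_ite_eq, if_pos (mem_univ x)]
    have h1 : ∑ y : V, (if x = rep y then (1 : ZMod 2) else 0) = 0 := by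
      by_cases hx : rep x = x
      · have h2 : (univ.filter (fun y => x = rep y)) = component src dst N x := by
          ext y
          rw [mem_filter, mem_component]
          constructor
          · rintro ⟨-, h⟩
            have h3 := hrep1 y
            rw [← h] at h3
            exact h3
          · intro h
            exact ⟨mem_univ y, by rw [← hrep2 x y h, hx]⟩
        rw [← sum_filter, h2, sum_const, nsmul_eq_mul, mul_one]
        obtain ⟨r, hr⟩ := hev x
        rw [hr, Nat.cast_add]
        have : ∀ a : ZMod 2, a + a = 0 := by decide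
        exact this _
      · apply sum_eq_zero
        intro y _
        rw [if_neg]
        intro h
        apply hx
        have h3 := hrep1 y
        rw [← h] at h3
        rw [hrep2 x y h3, ← h]
    rw [h1, add_zero]
  rw [hone] at hsum
  obtain ⟨h, hh1, hh2⟩ := hsum
  refine ⟨N.filter (fun e => h e ≠ 0), filter_subset _ _, fun x => ?_⟩
  have h01 : ∀ a : ZMod 2, a = if a ≠ 0 then 1 else 0 := by decide
  have h1 : ((N.filter (fun e => h e ≠ 0)) ∩ boundary src dst {x}) =
      (boundary src dst {x}).filter (fun e => h e ≠ 0) := by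
    ext e
    simp only [mem_inter, mem_filter]
    constructor
    · rintro ⟨⟨p, q⟩, r⟩
      exact ⟨r, q⟩
    · rintro ⟨p, q⟩
      refine ⟨⟨?_, q⟩, p⟩
      by_contra hn
      exact q (hh1 e hn)
  have h2 : ((((N.filter (fun e => h e ≠ 0)) ∩ boundary src dst {x}).card : ℕ) : ZMod 2) = 1 := by
    have h5 : ∑ e ∈ boundary src dst {x}, h e = 1 := hh2 x
    rw [h1, ← h5, card_filter]
    push_cast
    refine sum_congr rfl fun e _ => ?_
    exact (h01 (h e)).symm
  have h3 : ((N.filter (fun e => h e ≠ 0)) ∩ boundary src dst {x}).card ≤ 2 := by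
    refine le_of_le_of_eq ?_ (hN2 x)
    apply card_le_card
    intro e he
    rw [mem_inter, mem_filter] at he
    exact mem_inter.mpr ⟨he.1.1, he.2⟩
  generalize ((N.filter (fun e => h e ≠ 0)) ∩ boundary src dst {x}).card = c at h2 h3
  interval_cases c
  · exact absurd h2 (by decide)
  · rfl
  · exact absurd h2 (by decide)

end Pool.Agent.Helper151_VT
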