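import Pool.Agent.Helper151_VT.Simple
import Pool.Agent.Helper151_VT.Edge
import Pool.Agent.Y335.FL.Girth

set_option autoImplicit false
set_option linter.unusedSectionVars false

/-! # Simple graphs -/

namespace Pool.Agent.Helper151_VT

open Finset Pool.Agent.TH676.Z Pool.Agent.Y335.FL

section

variable {V : Type} [Fintype V] [DecidableEq V] {G : SimpleGraph V} [DecidableRel G.Adj]
  {src dst : G.edgeSet → V}

theorem mem_joining (hE : ∀ e : G.edgeSet, s(src e, dst e) = (e : Sym2 V)) (x y : V)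
    (e : G.edgeSet) : e ∈ joining src dst x y ↔ (e : Sym2 V) = s(x, y) := by
  rw [← hE e, Sym2.eq_iff]
  simp [joining]

theorem ends_ne (hE : ∀ e : G.edgeSet, s(src e, dst e) = (e : Sym2 V)) (e : G.edgeSet) :
    src e ≠ dst e := by
  have h := e.2
  rw [← hE e, SimpleGraph.mem_edgeSet] at h
  exact h.ne

theorem noParallel (hE : ∀ e : G.edgeSet, s(src e, dst e) = (e : Sym2 V)) :
    NoParallel src dst := by
  intro x y _
  rw [card_le_one]
  intro e he f hf
  rw [mem_joining hE] at he hf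
  exact Subtype.ext (he.trans hf.symm)

theorem card_boundary_deg (hE : ∀ e : G.edgeSet, s(src e, dst e) = (e : Sym2 V)) (x : V) :
    (boundary src dst {x}).card = G.degree x := by
  rw [← SimpleGraph.card_incidenceFinset_eq_degree, ← card_map (Function.Embedding.subtype _)]
  congr 1
  ext e
  rw [mem_map, SimpleGraph.mem_incidenceFinset]
  constructor
  · rintro ⟨f, hf, rfl⟩
    refine ⟨f.2, ?_⟩
    rw [mem_boundary, mem_singleton, mem_singleton] at hf
    show x ∈ (f : Sym2 V)
    rw [← hE f, Sym2.mem_iff]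
    tauto
  · rintro ⟨h1, h2⟩
    refine ⟨⟨e, h1⟩, ?_, rfl⟩
    rw [mem_boundary, mem_singleton, mem_singleton]
    have h3 := hE ⟨e, h1⟩
    have h4 := ends_ne hE ⟨e, h1⟩
    change s(src ⟨e, h1⟩, dst ⟨e, h1⟩) = e at h3
    rw [← h3, Sym2.mem_iff] at h2
    intro h5
    rcases h2 with h2 | h2
    · exact h4 (h2.symm.trans (h5.mp h2.symm).symm)
    · exact h4 ((h5.mpr h2.symm).trans h2)

theorem conn_cuts (hE : ∀ e : G.edgeSet, s(src e, dst e) = (e : Sym2 V)) (hconn : G.Connected)
    (X : Finset V) (h1 : X.Nonempty) (h2 : X ≠ univ) : 1 ≤ (boundary src dst X).card := by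
  obtain ⟨x, hx⟩ := h1
  obtain ⟨y, hy⟩ : ∃ y, y ∉ X := by
    by_contra h
    push Not at h
    exact h2 (eq_univ_of_forall h)
  obtain ⟨w⟩ := hconn.preconnected x y
  obtain ⟨d, -, h3, h4⟩ := w.exists_boundary_dart (X : Set V) hx hy
  have h3' : d.fst ∈ X := h3
  have h4' : d.snd ∉ X := h4
  refine card_pos.mpr ⟨⟨s(d.fst, d.snd), d.adj⟩, ?_⟩
  rw [mem_boundary]
  have h5 := hE ⟨s(d.fst, d.snd), d.adj⟩
  change s(src _, dst _) = s(d.fst, d.snd) at h5
  rw [Sym2.eq_iff] at h5
  rcases h5 with ⟨p, q⟩ | ⟨p, q⟩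
  · rw [p, q]
    exact fun h => h4' (h.mp h3')
  · rw [p, q]
    exact fun h => h4' (h.mpr h3')

theorem isAut_iso (hE : ∀ e : G.edgeSet, s(src e, dst e) = (e : Sym2 V)) (φ : G ≃g G) :
    IsAut src dst φ.toEquiv φ.mapEdgeSet := by
  intro e
  have h1 := hE (φ.mapEdgeSet e)
  have h2 : ((φ.mapEdgeSet e : G.edgeSet) : Sym2 V) = Sym2.map φ (e : Sym2 V) := rfl
  rw [h2, ← hE e, Sym2.map_mk, Sym2.eq_iff] at h1
  exact h1

theorem circuit_of_girth (hE : ∀ e : G.edgeSet, s(src e, dst e) = (e : Sym2 V)) {g : ℕ}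
    (h3 : 3 ≤ g) (hg : G.girth = g) :
    ∃ (n : ℕ) (v : Fin (n + 2) → V) (ed : Fin (n + 2) → G.edgeSet), IsCircuit src dst v ed ∧
      n + 2 = g := by
  have hac : ¬ G.IsAcyclic := by
    intro h
    rw [← SimpleGraph.girth_eq_zero] at h
    omega
  obtain ⟨a, w, hw, hwl⟩ := SimpleGraph.exists_girth_eq_length.mpr hac
  obtain ⟨n, rfl⟩ : ∃ n, g = n + 3 := ⟨g - 3, by omega⟩
  have hlen : w.length = n + 3 := by rw [← hwl, hg]
  have hadj : ∀ i : Fin (n + 3), G.Adj (w.getVert i.val) (w.getVert (i + 1).val) := by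
    intro i
    have h4 := w.adj_getVert_succ (show i.val < w.length by rw [hlen]; exact i.2)
    by_cases hi : i.val = n + 2
    · have h5 : (i + 1).val = 0 := by
        have : i = Fin.last (n + 2) := Fin.ext hi
        rw [this]
        simp
      rw [h5, SimpleGraph.Walk.getVert_zero]
      have h6 : w.getVert (i.val + 1) = a := by
        rw [hi, show n + 2 + 1 = w.length by omega, SimpleGraph.Walk.getVert_length]
      rw [h6] at h4
      exact h4
    · have h5 : (i + 1).val = i.val + 1 := by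
        apply Fin.val_add_one_of_lt
        rw [Fin.lt_def, Fin.val_last]
        have := i.2
        omega
      rw [h5]
      exact h4
  have hv : Function.Injective (fun i : Fin (n + 3) => w.getVert i.val) := by
    intro i j hij
    apply Fin.ext
    exact hw.getVert_injOn' (show i.val ≤ w.length - 1 by have := i.2; omega)
      (show j.val ≤ w.length - 1 by have := j.2; omega) hij
  have hj : ∀ i : Fin (n + 3), Jn src dst ⟨s(w.getVert i.val, w.getVert (i + 1).val), hadj i⟩
      (w.getVert i.val) (w.getVert (i + 1).val) := by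
    intro i
    have h5 := hE ⟨s(w.getVert i.val, w.getVert (i + 1).val), hadj i⟩
    change s(src _, dst _) = s(w.getVert i.val, w.getVert (i + 1).val) at h5
    rw [Sym2.eq_iff] at h5
    exact h5
  refine ⟨n + 1, fun i => w.getVert i.val,
    fun i => ⟨s(w.getVert i.val, w.getVert (i + 1).val), hadj i⟩, ⟨hv, ?_, hj⟩, rfl⟩
  exact GirthX.ed_inj (v := fun i : Fin (n + 3) => w.getVert i.val) hv hj

theorem no_triangle (hE : ∀ e : G.edgeSet, s(src e, dst e) = (e : Sym2 V)) (hg : 4 ≤ G.girth)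
    (x y z : V) : (joining src dst x y).card = 0 ∨ (joining src dst x z).card = 0 ∨
      (joining src dst y z).card = 0 := by
  by_contra hcon
  push Not at hcon
  obtain ⟨h1, h2, h3⟩ := hcon
  have key : ∀ p q, (joining src dst p q).card ≠ 0 → G.Adj p q := by
    intro p q h
    obtain ⟨e, he⟩ := card_pos.mp (Nat.pos_of_ne_zero h)
    rw [mem_joining hE] at he
    have h4 := e.2
    rw [he] at h4
    exact h4
  have h4 : ∃ s : Finset V, G.IsNClique 3 s :=
    ⟨{x, y, z}, SimpleGraph.is3Clique_triple_iff.mpr ⟨key _ _ h1, key _ _ h2, key _ _ h3⟩⟩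
  rw [SimpleGraph.is3Clique_iff_exists_cycle_length_three] at h4
  obtain ⟨u, w, hw, hl⟩ := h4
  have := SimpleGraph.girth_le_length hw
  omega

/-- an automorphism of the multigraph of a simple graph -/
def isoOfAut (hE : ∀ e : G.edgeSet, s(src e, dst e) = (e : Sym2 V)) {σ : Equiv.Perm V}
    {τ : Equiv.Perm G.edgeSet} (h : IsAut src dst σ τ) : G ≃g G where
  toEquiv := σ
  map_rel_iff' := by
    have key : ∀ {σ : Equiv.Perm V} {τ : Equiv.Perm G.edgeSet}, IsAut src dst σ τ →
        ∀ x y, G.Adj x y → G.Adj (σ x) (σ y) := by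
      intro σ τ h x y hxy
      have h1 := hE ⟨s(x, y), hxy⟩
      change s(src _, dst _) = s(x, y) at h1
      have h2 := hE (τ ⟨s(x, y), hxy⟩)
      have h3 := (τ ⟨s(x, y), hxy⟩).2
      rw [← h2, SimpleGraph.mem_edgeSet] at h3
      rw [Sym2.eq_iff] at h1
      rcases h ⟨s(x, y), hxy⟩ with ⟨p, q⟩ | ⟨p, q⟩ <;> rw [p, q] at h3 <;>
        rcases h1 with ⟨a, b⟩ | ⟨a, b⟩ <;> rw [a, b] at h3
      · exact h3
      · exact h3.symm
      · exact h3.symm
      · exact h3
    intro x y
    constructor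
    · intro h1
      have h2 := key h.symm _ _ h1
      rwa [Equiv.symm_apply_apply, Equiv.symm_apply_apply] at h2
    · exact key h x y

/-- a connected graph with degrees at least two contains a cycle -/
theorem not_acyclic (hconn : G.Connected) (hdeg : ∀ v, 2 ≤ G.degree v) : ¬ G.IsAcyclic := by
  intro hac
  obtain ⟨x⟩ := hconn.nonempty
  have hx := hdeg x
  obtain ⟨y, hy⟩ := (G.degree_pos_iff_exists_adj (v := x)).mp (by omega)
  have : Nontrivial V := ⟨⟨x, y, hy.ne⟩⟩
  have h1 := (SimpleGraph.IsTree.mk hconn hac).minDegree_eq_one_of_nontrivial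
  have h2 := G.le_minDegree_of_forall_le_degree 2 hdeg
  omega

end

theorem simple_graph (hL : St_lift) (hloc : St_local) {V : Type} [Fintype V] [DecidableEq V]
    (G : SimpleGraph V) [DecidableRel G.Adj] (k : ℕ) (hk : 2 ≤ k) (hconn : G.Connected)
    (hreg : G.IsRegularOfDegree k) (hT : ∀ u v : V, ∃ φ : G ≃g G, φ u = v)
    (h : k = 3 → 4 ≤ G.girth ∧ G.girth ≤ 11) (src dst : G.edgeSet → V)
    (hE : ∀ e : G.edgeSet, s(src e, dst e) = (e : Sym2 V)) : FlowOn src dst ∅ ∅ := by
  have hdeg : ∀ x, (boundary src dst {x}).card = k := fun x => by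
    rw [card_boundary_deg hE]
    exact hreg x
  refine simple_case hL hloc src dst (fun u v => ?_) (conn_cuts hE hconn) (noParallel hE)
    (fun x => by rw [hdeg]; exact hk) ?_
  · obtain ⟨φ, hφ⟩ := hT u v
    exact ⟨φ.toEquiv, φ.mapEdgeSet, isAut_iso hE φ, hφ⟩
  · by_cases hk3 : k = 3
    · right
      obtain ⟨h1, h2⟩ := h hk3
      refine ⟨fun x y z _ _ _ => no_triangle hE h1 x y z, ?_⟩
      obtain ⟨n, v, ed, hc, hn⟩ := circuit_of_girth hE (show 3 ≤ G.girth by omega) rfl
      exact ⟨n, v, ed, hc, by omega⟩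
    · left
      obtain ⟨x⟩ := hconn.nonempty
      exact ⟨x, by rw [hdeg]; exact hk3⟩

end Pool.Agent.Helper151_VT
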