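import Pool.Agent.Helper151_VT.Quot

set_option autoImplicit false
set_option linter.unusedSectionVars false

/-! # Vertex-transitive multigraphs: the reduction -/

namespace Pool.Agent.Helper151_VT

open Finset Pool.Agent.TH676.Z Pool.Agent.Y335.FL

section

variable {V E : Type} [Fintype V] [DecidableEq V] [Fintype E] [DecidableEq E] {src dst : E → V}

/-- the images of a block which is spanned by a short circuit can be contracted -/
theorem contract_gen (hL : St_lift) (hT : VertexTransitive src dst) (X : Finset V)
    (hb : IsBlock src dst X) {n : ℕ} (hn : n ≤ 9) {v : Fin (n + 2) → V} {ed : Fin (n + 2) → E}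
    (hc : IsCircuit src dst v ed) (hvX : ∀ x, x ∈ X ↔ ∃ i, v i = x) :
    ∃ (W : Type) (_ : Fintype W) (_ : DecidableEq W) (π : V → W), Function.Surjective π ∧
      (∀ w, (univ.filter (fun x => π x = w)).card = X.card) ∧
      VertexTransitive (π ∘ src) (π ∘ dst) ∧
      (∀ w, (boundary (π ∘ src) (π ∘ dst) {w}).card = (boundary src dst X).card) ∧
      (FlowOn (π ∘ src) (π ∘ dst) ∅ ∅ → FlowOn src dst ∅ ∅) := by
  classical
  choose σ τ hστ hσ using fun u : V => hT u (v 0)
  have hv0 : v 0 ∈ X := (hvX _).mpr ⟨0, rfl⟩
  have hrel : ∀ u y, blockRel src dst X u y ↔ σ u y ∈ X :=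
    fun u y => rel_iff hb (hστ u) (by rw [hσ]; exact hv0) y
  obtain ⟨s, hs⟩ : ∃ s : Setoid V, s = blockSetoid src dst X := ⟨_, rfl⟩
  have hsr : ∀ x y, (s x y) ↔ blockRel src dst X x y := fun x y => by rw [hs]; rfl
  obtain ⟨π, hπd⟩ : ∃ π : V → Quotient s, π = Quotient.mk s := ⟨_, rfl⟩
  have hπ : ∀ x y, π x = π y ↔ blockRel src dst X x y := by
    intro x y
    rw [← hsr, hπd]
    exact Quotient.eq
  have hcirc := fun u => hc.map (hστ u).symm
  -- the vertices of the circuits
  have hv : ∀ u i, π ((⇑(σ u).symm ∘ v) i) = π u := by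
    intro u i
    symm
    rw [hπ, hrel]
    simp only [Function.comp, Equiv.apply_symm_apply]
    exact (hvX _).mpr ⟨i, rfl⟩
  obtain ⟨C, hC⟩ : ∃ C : V → Finset E, C = fun u => univ.image (⇑(τ u).symm ∘ ed) :=
    ⟨_, rfl⟩
  have hshort : ∀ u, Short src dst (C u) := fun u =>
    ⟨n, _, _, hn, hcirc u, by rw [hC]⟩
  have hFπ : ∀ e ∈ univ.biUnion C, π (src e) = π (dst e) := by
    intro e he
    obtain ⟨u, -, hu⟩ := mem_biUnion.mp he
    rw [hC] at hu
    obtain ⟨i, -, rfl⟩ := mem_image.mp hu
    rcases (hcirc u).2.2 i with ⟨p, q⟩ | ⟨p, q⟩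
    · rw [p, q, hv, hv]
    · rw [p, q, hv, hv]
  obtain ⟨r, r1, r2, r3⟩ := Local11.quot src dst (univ.biUnion C)
  have hstep : ∀ u i, r ((⇑(σ u).symm ∘ v) i) = r ((⇑(σ u).symm ∘ v) (i + 1)) := by
    intro u i
    have h4 : (⇑(τ u).symm ∘ ed) i ∈ univ.biUnion C :=
      mem_biUnion.mpr ⟨u, mem_univ u, by rw [hC]; exact mem_image.mpr ⟨i, mem_univ i, rfl⟩⟩
    have h5 := r1 _ h4
    rcases (hcirc u).2.2 i with ⟨p, q⟩ | ⟨p, q⟩
    · rw [p, q] at h5
      exact h5
    · rw [p, q] at h5
      exact h5.symm
  have hall : ∀ u (i : Fin (n + 2)), r ((⇑(σ u).symm ∘ v) 0) = r ((⇑(σ u).symm ∘ v) i) := by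
    intro u i
    induction i using Fin.induction with
    | zero => rfl
    | succ i ih =>
      rw [ih, hstep u i.castSucc, Fin.coeSucc_eq_succ]
  have hr : ∀ x y, π x = π y → r x = r y := by
    intro x y hxy
    rw [hπ, hrel, hvX] at hxy
    obtain ⟨i, hi⟩ := hxy
    have h4 := hall x i
    have q0 : (⇑(σ x).symm ∘ v) 0 = x := by
      show (σ x).symm (v 0) = x
      rw [← hσ x, Equiv.symm_apply_apply]
    have q1 : (⇑(σ x).symm ∘ v) i = y := by
      show (σ x).symm (v i) = y
      rw [hi, Equiv.symm_apply_apply]
    rw [q0, q1] at h4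
    exact h4
  have hout : ∀ w : Quotient s, π (Quotient.out w) = w := fun w => by
    rw [hπd]
    exact Quotient.out_eq w
  have hfib : ∀ w x, π x = w ↔ σ (Quotient.out w) x ∈ X := by
    intro w x
    rw [← hrel, ← hπ, hout]
    exact ⟨fun h => h.symm, fun h => h.symm⟩
  refine ⟨Quotient s, inferInstance, inferInstance, π, ?_, ?_, ?_, ?_, ?_⟩
  · intro w
    exact ⟨Quotient.out w, hout w⟩
  · intro w
    refine card_equiv (σ (Quotient.out w)) fun x => ?_
    rw [mem_filter, hfib]
    exact ⟨fun h => h.2, fun h => ⟨mem_univ _, h⟩⟩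
  · intro w w'
    obtain ⟨ρ, κ, h, hρ⟩ := hT (Quotient.out w) (Quotient.out w')
    have hcg : ∀ x y, s x y ↔ s (ρ x) (ρ y) := fun x y => by
      rw [hsr, hsr]
      exact rel_map h x y
    have hmk : ∀ x, (Quotient.congr ρ hcg) (π x) = π (ρ x) := fun x => by
      rw [hπd]
      rfl
    refine ⟨Quotient.congr ρ hcg, κ, fun e => ?_, ?_⟩
    · simp only [Function.comp]
      rw [hmk, hmk]
      rcases h e with ⟨p, q⟩ | ⟨p, q⟩
      · left
        rw [p, q]
        exact ⟨rfl, rfl⟩
      · right
        rw [p, q]
        exact ⟨rfl, rfl⟩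
    · rw [← hout w, hmk, hρ, hout w']
  · intro w
    rw [boundary_preim, ← card_boundary_image (hστ (Quotient.out w))]
    congr 2
    ext x
    rw [mem_image]
    constructor
    · rintro ⟨y, hy, rfl⟩
      simp only [preim, mem_filter, mem_univ, true_and, mem_singleton] at hy
      exact (hfib w y).mp hy
    · intro hx
      refine ⟨(σ (Quotient.out w)).symm x, ?_, Equiv.apply_symm_apply _ _⟩
      simp only [preim, mem_filter, mem_univ, true_and, mem_singleton]
      rw [hfib, Equiv.apply_symm_apply]
      exact hx
  · intro hfl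
    have h4 : FlowOn (r ∘ src) (r ∘ dst) ∅ ∅ := by
      refine Local11.flowOn_range src dst r (Quotient s) π (fun w => r (Quotient.out w)) ?_ ?_ ∅ hfl
      · intro w w' hw
        have h5 := r3 (univ.filter (fun x => π x = w)) (by
          rw [disjoint_left]
          intro e he heF
          rw [crs_eq, mem_boundary] at he
          apply he
          simp only [mem_filter, mem_univ, true_and]
          rw [hFπ e heF]) _ _ hw
        simp only [mem_filter, mem_univ, true_and] at h5
        rw [hout, hout] at h5
        exact (h5.mp rfl).symm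
      · intro x
        exact hr _ _ (hout _)
    have h6 := r2 ∅ h4
    rw [union_empty] at h6
    exact lift_fam hL C hshort h6

theorem contract_step (hL : St_lift) (hT : VertexTransitive src dst)
    (h3 : ∀ X : Finset V, X.Nonempty → X ≠ univ → 3 ≤ (boundary src dst X).card)
    (X : Finset V) (hb : IsBlock src dst X) (hX : (boundary src dst X).card = 3)
    (hc : X.card = 3) :
    ∃ (W : Type) (_ : Fintype W) (_ : DecidableEq W) (π : V → W), Function.Surjective π ∧
      (∀ w, (univ.filter (fun x => π x = w)).card = 3) ∧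
      VertexTransitive (π ∘ src) (π ∘ dst) ∧
      (FlowOn (π ∘ src) (π ∘ dst) ∅ ∅ → FlowOn src dst ∅ ∅) := by
  obtain ⟨m, a, b, c, hab, hac, hbc, rfl, m1, m2, m3, hdeg⟩ := triangle_block hT X hb hX hc
  have hm : 1 ≤ m := by
    have h4 := h3 {a} (singleton_nonempty a) (fun h => by
      have : b ∈ ({a} : Finset V) := by rw [h]; exact mem_univ b
      exact hab (mem_singleton.mp this).symm)
    rw [hdeg] at h4
    omega
  obtain ⟨e1, he1⟩ : (joining src dst a b).Nonempty := card_pos.mp (by omega)
  obtain ⟨e2, he2⟩ : (joining src dst b c).Nonempty := card_pos.mp (by omega)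
  obtain ⟨e3, he3⟩ : (joining src dst a c).Nonempty := card_pos.mp (by omega)
  have htri := triangle_circuit hab hac hbc he1 he2 he3
  obtain ⟨W, i1, i2, π, h1, h2, h4, -, h5⟩ := contract_gen hL hT {a, b, c} hb
    (by norm_num : 1 ≤ 9) htri (fun x => by
      simp only [mem_insert, mem_singleton]
      constructor
      · rintro (rfl | rfl | rfl)
        · exact ⟨0, rfl⟩
        · exact ⟨1, rfl⟩
        · exact ⟨2, rfl⟩
      · rintro ⟨i, rfl⟩
        fin_cases i <;> simp)
  rw [hc] at h2
  exact ⟨W, i1, i2, π, h1, h2, h4, h5⟩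

end

theorem reduction (hL : St_lift) (hloc : St_local) (n : ℕ) :
    ∀ (V E : Type) [Fintype V] [DecidableEq V] [Fintype E] [DecidableEq E] (src dst : E → V),
      Fintype.card V = n → VertexTransitive src dst →
      (∀ X : Finset V, X.Nonempty → X ≠ univ → 3 ≤ (boundary src dst X).card) →
      ¬ FlowOn src dst ∅ ∅ →
      ∃ (W : Type) (_ : Fintype W) (_ : DecidableEq W) (π : V → W) (j : ℕ),
        Function.Surjective π ∧ (∀ w, (univ.filter (fun x => π x = w)).card = 3 ^ j) ∧
        VertexTransitive (π ∘ src) (π ∘ dst) ∧ Residual (π ∘ src) (π ∘ dst) ∧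
        ¬ FlowOn (π ∘ src) (π ∘ dst) ∅ ∅ ∧
        (j ≠ 0 → Triangles src dst) := by
  induction n using Nat.strong_induction_on with
  | _ n ih =>
    intro V E _ _ _ _ src dst hn hT h3 hnf
    have hblock : ∀ X : Finset V, (boundary src dst X).card = 3 → 2 * X.card ≤ Fintype.card V →
        IsBlock src dst X := fun X h1 h2 => isBlock_of X fun Y a b c =>
      no_cross3 h3 X Y h1 (a.trans h1) b.symm h2 c
    have hne : ∀ X : Finset V, (boundary src dst X).card = 3 → X.Nonempty := by
      intro X hX
      rw [nonempty_iff_ne_empty]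
      intro h
      rw [h, boundary_empty] at hX
      simp at hX
    by_cases hA : ∃ X : Finset V, (boundary src dst X).card = 3 ∧ X.card = 3 ∧
        2 * X.card ≤ Fintype.card V
    · obtain ⟨X, hX, hc, h2⟩ := hA
      have hb := hblock X hX h2
      obtain ⟨W, _, _, π, hs, hf, hTW, hfl⟩ := contract_step hL hT h3 X hb hX hc
      have hcardV : Fintype.card V = 3 * Fintype.card W := by
        have h4 := card_eq_sum_card_fiberwise (s := (univ : Finset V)) (t := (univ : Finset W))
          (f := π) (fun x _ => by simp)
        rw [card_univ] at h4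
        rw [h4, sum_congr rfl (fun w _ => hf w), sum_const, card_univ, smul_eq_mul, mul_comm]
      have hWpos : 0 < Fintype.card W := by
        rcases Nat.eq_zero_or_pos (Fintype.card W) with h | h
        · rw [h] at hcardV
          omega
        · exact h
      obtain ⟨W', _, _, π', j, hs', hf', htr', hres, hnf', -⟩ := ih (Fintype.card W) (by omega) W E
        (π ∘ src) (π ∘ dst) rfl hTW (fun Y a b => cuts_quot π hs 3 h3 Y a b)
        (fun h => hnf (hfl h))
      refine ⟨W', inferInstance, inferInstance, π' ∘ π, j + 1, hs'.comp hs, fun w => ?_, htr',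
        hres, hnf', fun _ => ?_⟩
      · have h4 := card_eq_sum_card_fiberwise
          (s := univ.filter (fun x => (π' ∘ π) x = w)) (t := univ.filter (fun y => π' y = w))
          (f := π) (fun x hx => by
            have hx' : x ∈ univ.filter (fun x => (π' ∘ π) x = w) := hx
            simp only [mem_filter, mem_univ, true_and, Function.comp] at hx'
            simp [hx'])
        rw [h4]
        have h5 : ∀ y ∈ univ.filter (fun y => π' y = w),
            ((univ.filter (fun x => (π' ∘ π) x = w)).filter (fun x => π x = y)).card = 3 := by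
          intro y hy
          rw [← hf y]
          congr 1
          ext x
          simp only [mem_filter, mem_univ, true_and, Function.comp] at hy ⊢
          constructor
          · exact fun h => h.2
          · intro h
            exact ⟨by rw [h, hy], h⟩
        rw [sum_congr rfl h5, sum_const, hf' w, smul_eq_mul, pow_succ]
      · obtain ⟨m, a, b, c, hab, hac, hbc, rfl, m1, m2, m3, hdeg⟩ := triangle_block hT X hb hX hc
        refine ⟨m, fun x => ⟨hdeg x, ?_⟩⟩
        obtain ⟨σ, τ, h, hσ⟩ := hT a x
        have hj : ∀ p q, (joining src dst (σ p) (σ q)).card = (joining src dst p q).card := by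
          intro p q
          symm
          refine card_equiv τ fun e => ?_
          simp only [joining, mem_filter, mem_univ, true_and]
          rcases h e with ⟨h1, h2⟩ | ⟨h1, h2⟩
          · rw [h1, h2, σ.injective.eq_iff, σ.injective.eq_iff, σ.injective.eq_iff,
              σ.injective.eq_iff]
          · rw [h1, h2, σ.injective.eq_iff, σ.injective.eq_iff, σ.injective.eq_iff,
              σ.injective.eq_iff]
            tauto
        refine ⟨σ b, σ c, ?_, ?_, fun h => hbc (σ.injective h), ?_, ?_, ?_⟩
        · rw [← hσ]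
          exact fun h => hab (σ.injective h)
        · rw [← hσ]
          exact fun h => hac (σ.injective h)
        · rw [← hσ, hj, m1]
        · rw [← hσ, hj, m2]
        · rw [hj, m3]
    · push Not at hA
      -- a set with three boundary edges is trivial
      have hsmall : ∀ X : Finset V, (boundary src dst X).card = 3 →
          2 * X.card ≤ Fintype.card V → X.card = 1 := by
        intro X hX h2
        obtain ⟨u, hu⟩ := hne X hX
        have h4 := block_mul hT X (hblock X hX h2) hu
        rw [hX] at h4
        have h5 : X.card ∣ 3 := ⟨_, h4⟩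
        rcases (Nat.dvd_prime Nat.prime_three).mp h5 with h | h
        · exact h
        · exact absurd h2 (by have := hA X hX h; omega)
      have hstars : ∀ X : Finset V, (boundary src dst X).card = 3 → X.card = 1 ∨ Xᶜ.card = 1 := by
        intro X hX
        rcases Nat.lt_or_ge (Fintype.card V) (2 * X.card) with h | h
        · right
          apply hsmall
          · rw [boundary_compl]
            exact hX
          · rw [card_compl]
            omega
        · left
          exact hsmall X hX h
      by_cases hB : ∃ X : Finset V, (boundary src dst X).card = 3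
      · obtain ⟨X, hX⟩ := hB
        have h6 : ∃ u, (boundary src dst {u}).card = 3 := by
          rcases hstars X hX with h | h
          · obtain ⟨u, hu⟩ := card_eq_one.mp h
            exact ⟨u, by rw [← hu]; exact hX⟩
          · obtain ⟨u, hu⟩ := card_eq_one.mp h
            exact ⟨u, by rw [← hu, boundary_compl]; exact hX⟩
        obtain ⟨u, hu⟩ := h6
        have hcub : ∀ x, (boundary src dst {x}).card = 3 := fun x => by
          rw [card_deg hT x u]
          exact hu
        refine ⟨V, inferInstance, inferInstance, id, 0, Function.surjective_id, fun w => ?_,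
          hT, ⟨hcub, h3, hstars, fun k v ed hcirc => ?_⟩, hnf, fun h => absurd rfl h⟩
        · simp [filter_eq']
        · by_contra hlt
          exact hnf (short_case hloc hT h3 hstars (by omega) hcirc)
      · exfalso
        apply hnf
        refine cuts_four hloc fun X a b => ?_
        have h4 := h3 X a b
        have h5 : (boundary src dst X).card ≠ 3 := fun h => hB ⟨X, h⟩
        omega

end Pool.Agent.Helper151_VT
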