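import Pool.Agent.Helper151_VT.Factor
import Pool.Agent.Helper151_VT.Main

set_option autoImplicit false
set_option linter.unusedSectionVars false

/-! # Edge orbits of cubic vertex-transitive multigraphs, and the reduction for all
vertex-transitive multigraphs -/

namespace Pool.Agent.Helper151_VT

open Finset Pool.Agent.TH676.Z Pool.Agent.Y335.FL

section

variable {V E : Type} [Fintype V] [DecidableEq V] [Fintype E] [DecidableEq E] {src dst : E → V}

theorem linked_map {σ : Equiv.Perm V} {τ : Equiv.Perm E} (h : IsAut src dst σ τ) {N : Finset E}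
    (hN : ∀ e ∈ N, τ e ∈ N) {x y : V} (hxy : Linked src dst N x y) :
    Linked src dst N (σ x) (σ y) := by
  induction hxy with
  | rel a b hab =>
    obtain ⟨e, he, rfl, rfl⟩ := hab
    rcases h e with ⟨p, q⟩ | ⟨p, q⟩
    · exact Relation.EqvGen.rel _ _ ⟨τ e, hN e he, p, q⟩
    · exact Relation.EqvGen.symm _ _ (Relation.EqvGen.rel _ _ ⟨τ e, hN e he, p, q⟩)
  | refl a => exact Relation.EqvGen.refl _
  | symm a b _ ih => exact Relation.EqvGen.symm _ _ ih
  | trans a b c _ _ ih1 ih2 => exact Relation.EqvGen.trans _ _ _ ih1 ih2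

theorem card_component {Γ : Set (Equiv.Perm V × Equiv.Perm E)} (hT : TransitiveGroup src dst Γ)
    {N : Finset E} (hN : ∀ p ∈ Γ, ∀ e, e ∈ N ↔ p.2 e ∈ N)
    (x y : V) : (component src dst N x).card = (component src dst N y).card := by
  obtain ⟨p, hp, hσ⟩ := hT.transitive x y
  refine card_equiv p.1 fun z => ?_
  rw [mem_component, mem_component, ← hσ]
  constructor
  · exact fun h1 => linked_map (hT.aut p hp) (fun e he => (hN p hp e).mp he) h1
  · intro h1
    have h2 := linked_map (hT.aut p hp).symm (fun e he => (hN _ (hT.inv p hp) e).mp he) h1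
    rwa [Equiv.symm_apply_apply, Equiv.symm_apply_apply] at h2

/-- an invariant two-factor -/
theorem odd_factor {Γ : Set (Equiv.Perm V × Equiv.Perm E)} (hT : TransitiveGroup src dst Γ)
    (hcub : ∀ x, (boundary src dst {x}).card = 3)
    (hg : ∀ (n : ℕ) (v : Fin (n + 2) → V) (ed : Fin (n + 2) → E), IsCircuit src dst v ed →
      12 ≤ n + 2) (hnf : ¬ FlowOn src dst ∅ ∅) (x0 : V) {N : Finset E}
    (hN : ∀ p ∈ Γ, ∀ e, e ∈ N ↔ p.2 e ∈ N)
    (hNp : ∀ e ∈ N, src e ≠ dst e) (hN2 : ∀ x, (N ∩ boundary src dst {x}).card = 2) :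
    OddTwoFactor src dst Γ := by
  have hcard := fun x => card_component hT hN x x0
  have hodd : Odd (component src dst N x0).card := by
    rw [← Nat.not_even_iff_odd]
    intro hev
    obtain ⟨J, hJ, hJ1⟩ := matching_of_even hNp hN2 (fun x => by rw [hcard]; exact hev)
    exact hnf (flow_of_matchings hcub N J hNp hN2 hJ hJ1)
  refine ⟨N, _, hN, hNp, hN2, hcard, hodd, ?_⟩
  -- there is a circuit in `N`
  obtain ⟨e0, he0⟩ : (N ∩ boundary src dst {x0}).Nonempty := card_pos.mp (by rw [hN2]; omega)
  obtain ⟨n, v, ed, hv, hed, hJ, hmem⟩ := circEx V E src dst N ⟨e0, (mem_inter.mp he0).1⟩ hNp (by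
    intro x e he hx
    have h1 : 1 < (N ∩ boundary src dst {x}).card := by rw [hN2]; omega
    obtain ⟨e', he', hne'⟩ := exists_mem_ne h1 e
    rw [mem_inter] at he'
    exact ⟨e', he'.1, hne', (mem_star (hNp e' he'.1) x).mp he'.2⟩)
  have h12 := hg n v ed ⟨hv, hed, hJ⟩
  have hlink : ∀ i : Fin (n + 2), Linked src dst N (v 0) (v i) := by
    intro i
    induction i using Fin.induction with
    | zero => exact Relation.EqvGen.refl _
    | succ i ih =>
      refine Relation.EqvGen.trans _ _ _ ih ?_
      have h1 := hJ i.castSucc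
      rw [Fin.coeSucc_eq_succ] at h1
      rcases h1 with ⟨p, q⟩ | ⟨p, q⟩
      · exact Relation.EqvGen.rel _ _ ⟨ed i.castSucc, hmem _, p, q⟩
      · exact Relation.EqvGen.symm _ _ (Relation.EqvGen.rel _ _ ⟨ed i.castSucc, hmem _, p, q⟩)
  have h1 : n + 2 ≤ (component src dst N (v 0)).card := by
    have h0 : (univ.image v).card = n + 2 := by
      rw [card_image_of_injective _ hv, card_univ, Fintype.card_fin]
    refine h0.symm.le.trans (card_le_card ?_)
    intro y hy
    obtain ⟨i, -, rfl⟩ := mem_image.mp hy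
    rw [mem_component]
    exact hlink i
  rw [hcard] at h1
  obtain ⟨r, hr⟩ := hodd
  omega

/-- a vertex-transitive group of automorphisms of a cubic multigraph without a flow is transitive
on the edges or has an invariant two-factor -/
theorem factor_case {Γ : Set (Equiv.Perm V × Equiv.Perm E)} (hT : TransitiveGroup src dst Γ)
    (hcub : ∀ x, (boundary src dst {x}).card = 3)
    (hg : ∀ (n : ℕ) (v : Fin (n + 2) → V) (ed : Fin (n + 2) → E), IsCircuit src dst v ed →
      12 ≤ n + 2) (hnf : ¬ FlowOn src dst ∅ ∅) :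
    EdgeTransitiveGroup src dst Γ ∨ OddTwoFactor src dst Γ := by
  classical
  rcases isEmpty_or_nonempty V with hV | ⟨⟨x0⟩⟩
  · exact Or.inl fun e => (hV.false (src e)).elim
  obtain ⟨e1, he1⟩ := card_pos.mp (show 0 < (boundary src dst {x0}).card by rw [hcub]; omega)
  have he1p := star_proper x0 he1
  obtain ⟨O, hO⟩ : ∃ O : Finset E, O = univ.filter (fun e => ∃ p ∈ Γ, p.2 e1 = e) := ⟨_, rfl⟩
  have hmO : ∀ e, e ∈ O ↔ ∃ p ∈ Γ, p.2 e1 = e := fun e => by rw [hO]; simp
  have hOinv : ∀ p ∈ Γ, ∀ e, e ∈ O ↔ p.2 e ∈ O := by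
    intro p hp e
    rw [hmO, hmO]
    constructor
    · rintro ⟨q, hq, rfl⟩
      exact ⟨_, hT.mul q hq p hp, rfl⟩
    · rintro ⟨q, hq, he⟩
      refine ⟨_, hT.mul q hq _ (hT.inv p hp), ?_⟩
      show p.2.symm (q.2 e1) = e
      rw [he, Equiv.symm_apply_apply]
  have hprop : ∀ p ∈ Γ, ∀ e, src e ≠ dst e ↔ src (p.2 e) ≠ dst (p.2 e) := by
    intro p hp e
    rcases hT.aut p hp e with ⟨a, b⟩ | ⟨a, b⟩
    · rw [a, b, p.1.injective.ne_iff]
    · rw [a, b, p.1.injective.ne_iff]
      exact ne_comm
  have hOp : ∀ e ∈ O, src e ≠ dst e := by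
    intro e he
    obtain ⟨p, hp, rfl⟩ := (hmO e).mp he
    exact (hprop p hp e1).mp he1p
  have hOx : ∀ x, (O ∩ boundary src dst {x}).card = (O ∩ boundary src dst {x0}).card := by
    intro x
    obtain ⟨p, hp, hσ⟩ := hT.transitive x x0
    refine card_equiv p.2 fun e => ?_
    rw [mem_inter, mem_inter, ← hOinv p hp e]
    have h1 := mem_boundary_image (hT.aut p hp) {x} e
    rw [image_singleton, hσ] at h1
    rw [h1]
  have hid : e1 ∈ O := by
    obtain ⟨p, hp, -⟩ := hT.transitive x0 x0
    refine (hmO e1).mpr ⟨_, hT.mul p hp _ (hT.inv p hp), ?_⟩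
    show p.2.symm (p.2 e1) = e1
    exact Equiv.symm_apply_apply _ _
  have h1 : 1 ≤ (O ∩ boundary src dst {x0}).card := card_pos.mpr ⟨e1, mem_inter.mpr ⟨hid, he1⟩⟩
  have h3 : (O ∩ boundary src dst {x0}).card ≤ 3 := by
    rw [← hcub x0]
    exact card_le_card inter_subset_right
  have hcases : (O ∩ boundary src dst {x0}).card = 3 ∨ (O ∩ boundary src dst {x0}).card = 2 ∨
      (O ∩ boundary src dst {x0}).card = 1 := by omega
  rcases hcases with h | h | h
  · left
    have hall : ∀ e, src e ≠ dst e → e ∈ O := by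
      intro e he
      have h4 : O ∩ boundary src dst {src e} = boundary src dst {src e} := by
        apply eq_of_subset_of_card_le inter_subset_right
        rw [hcub, hOx, h]
      have h5 : e ∈ boundary src dst {src e} := (mem_star he _).mpr (Or.inl rfl)
      rw [← h4, mem_inter] at h5
      exact h5.1
    intro e f he hf
    obtain ⟨p, hp, h5⟩ := (hmO e).mp (hall e he)
    obtain ⟨q, hq, h7⟩ := (hmO f).mp (hall f hf)
    refine ⟨_, hT.mul _ (hT.inv p hp) q hq, ?_⟩
    show q.2 (p.2.symm e) = f
    rw [← h5, Equiv.symm_apply_apply, h7]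
  · right
    exact odd_factor hT hcub hg hnf x0 hOinv hOp (fun x => by rw [hOx, h])
  · right
    refine odd_factor hT hcub hg hnf x0 (N := univ.filter (fun e => src e ≠ dst e ∧ e ∉ O))
      ?_ ?_ ?_
    · intro p hp e
      simp only [mem_filter, mem_univ, true_and]
      rw [← hprop p hp e, ← hOinv p hp e]
    · intro e he
      exact (mem_filter.mp he).2.1
    · intro x
      have h4 : (univ.filter (fun e => src e ≠ dst e ∧ e ∉ O)) ∩ boundary src dst {x} =
          boundary src dst {x} \ (O ∩ boundary src dst {x}) := by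
        ext e
        simp only [mem_inter, mem_filter, mem_univ, true_and, mem_sdiff]
        constructor
        · rintro ⟨⟨_, h5⟩, h6⟩
          exact ⟨h6, fun h7 => h5 h7.1⟩
        · rintro ⟨h5, h6⟩
          exact ⟨⟨star_proper x h5, fun h7 => h6 ⟨h7, h5⟩⟩, h5⟩
      rw [h4, card_sdiff_of_subset inter_subset_right, hcub, hOx, h]

end

/-- the reduction for all connected vertex-transitive multigraphs of degree at least two -/
theorem reduction_all (hL : St_lift) (hloc : St_local) {V E : Type} [Fintype V] [DecidableEq V]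
    [Fintype E] [DecidableEq E] (src dst : E → V) (hT : VertexTransitive src dst)
    (hconn : ∀ X : Finset V, X.Nonempty → X ≠ univ → 1 ≤ (boundary src dst X).card)
    (hdeg : ∀ x, 2 ≤ (boundary src dst {x}).card) (hnf : ¬ FlowOn src dst ∅ ∅) :
    ∃ (W : Type) (_ : Fintype W) (_ : DecidableEq W) (π : V → W) (j : ℕ),
      Function.Surjective π ∧ (∀ w, (univ.filter (fun x => π x = w)).card = 3 ^ j) ∧
      VertexTransitive (π ∘ src) (π ∘ dst) ∧ Residual (π ∘ src) (π ∘ dst) ∧
      (∀ Γ, TransitiveGroup (π ∘ src) (π ∘ dst) Γ →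
        EdgeTransitiveGroup (π ∘ src) (π ∘ dst) Γ ∨ OddTwoFactor (π ∘ src) (π ∘ dst) Γ) ∧
      ¬ FlowOn (π ∘ src) (π ∘ dst) ∅ ∅ ∧ (j ≠ 0 → Triangles src dst) := by
  have h3 : ∀ X : Finset V, X.Nonempty → X ≠ univ → 3 ≤ (boundary src dst X).card := by
    intro X0 h0 h0'
    obtain ⟨S, hS⟩ : ∃ S : Finset (Finset V), S = univ.filter (fun X => X.Nonempty ∧ X ≠ univ) :=
      ⟨_, rfl⟩
    have hmemS : ∀ X, X ∈ S ↔ X.Nonempty ∧ X ≠ univ := fun X => by rw [hS]; simp
    obtain ⟨X1, hX1, hmin1⟩ := exists_min_image S (fun X => (boundary src dst X).card)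
      ⟨X0, (hmemS X0).mpr ⟨h0, h0'⟩⟩
    obtain ⟨l, hl⟩ : ∃ l, l = (boundary src dst X1).card := ⟨_, rfl⟩
    obtain ⟨X, hX, hmin⟩ := exists_min_image (S.filter (fun X => (boundary src dst X).card = l))
      (fun X => X.card) ⟨X1, mem_filter.mpr ⟨hX1, hl.symm⟩⟩
    rw [mem_filter, hmemS] at hX
    obtain ⟨⟨hXn, hXu⟩, hXl⟩ := hX
    have hlmin : ∀ Z : Finset V, Z.Nonempty → Z ≠ univ → l ≤ (boundary src dst Z).card :=
      fun Z a b => by
        rw [hl]
        exact hmin1 Z ((hmemS Z).mpr ⟨a, b⟩)
    have hl1 : 1 ≤ l := by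
      rw [← hXl]
      exact hconn X hXn hXu
    by_contra hcon
    have hl2 : l ≤ 2 := by
      have := hlmin X0 h0 h0'
      omega
    have hmin' : ∀ Z : Finset V, Z.Nonempty → (boundary src dst Z).card = l →
        X.card ≤ Z.card := by
      intro Z a b
      apply hmin Z
      rw [mem_filter, hmemS]
      refine ⟨⟨a, ?_⟩, b⟩
      rintro rfl
      simp [boundary] at b
      omega
    have h2 : 2 * X.card ≤ Fintype.card V := by
      have h5 := hmin' Xᶜ (by
        rw [nonempty_iff_ne_empty]
        intro h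
        exact hXu (compl_eq_empty_iff X |>.mp h)) (by rw [boundary_compl]; exact hXl)
      rw [card_compl] at h5
      have h6 := card_le_univ X
      have h7 := hXn.card_pos
      omega
    have hb : IsBlock src dst X := isBlock_of X fun Y a b c =>
      no_cross_min l hlmin X Y hXl (a.trans hXl) hmin' b.symm h2 c
    obtain ⟨u, hu⟩ := hXn
    have h4 := block_mul hT X hb hu
    rw [hXl] at h4
    have h5 : X.card ≤ 2 := by
      have : X.card ∣ l := ⟨_, h4⟩
      exact (Nat.le_of_dvd (by omega) this).trans hl2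
    have h6 : 0 < X.card := card_pos.mpr ⟨u, hu⟩
    rcases Nat.lt_or_ge X.card 2 with h | h
    · -- the degree is two
      obtain ⟨w, hw⟩ := card_eq_one.mp (show X.card = 1 by omega)
      have h7 := hdeg w
      rw [hw] at hXl
      apply hnf
      apply flow_of_even
      intro x
      rw [card_deg hT x w, hXl]
      have : l = 2 := by omega
      rw [this]
      exact even_two
    · have h7 : X.card = 2 := by omega
      rw [h7] at h4
      have hl2' : l = 2 := by omega
      have ht : (bdAt src dst X u).card = 1 := by omega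
      obtain ⟨a, b, hab, hXab⟩ := card_eq_two.mp h7
      have h8 := deg_two (src := src) (dst := dst) hab
      have h10 := card_bdAt hT _ hb (show a ∈ X by rw [hXab]; simp) hu
      rw [← hXab] at h8
      have h11 := hdeg a
      rcases Nat.lt_or_ge (joining src dst a b).card 2 with h12 | h12
      · apply hnf
        apply flow_of_even
        intro x
        rw [card_deg hT x a]
        have : (boundary src dst {a}).card = 2 := by omega
        rw [this]
        exact even_two
      · obtain ⟨e1, he1, e2, he2, he12⟩ := one_lt_card.mp (show 1 < _ from h12)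
        have hcirc : IsCircuit src dst (n := 0) ![a, b] ![e1, e2] := by
          simp only [joining, mem_filter, mem_univ, true_and] at he1 he2
          refine ⟨?_, ?_, ?_⟩
          · intro i j hij
            fin_cases i <;> fin_cases j <;> simp_all
          · intro i j hij
            fin_cases i <;> fin_cases j <;> simp_all
          · intro i
            fin_cases i
            · exact he1
            · exact he2.symm
        obtain ⟨W, i1, i2, π, k1, k2, k3, k4, k5⟩ := contract_gen hL hT X hb
          (by norm_num : 0 ≤ 9) hcirc (fun x => by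
            rw [hXab]
            simp only [mem_insert, mem_singleton]
            constructor
            · rintro (rfl | rfl)
              · exact ⟨0, rfl⟩
              · exact ⟨1, rfl⟩
            · rintro ⟨i, rfl⟩
              fin_cases i <;> simp)
        apply hnf
        apply k5
        apply flow_of_even
        intro w
        rw [k4, hXl, hl2']
        exact even_two
  obtain ⟨W, i1, i2, π, j, k1, k2, k3, k4, k5, k6⟩ :=
    reduction hL hloc (Fintype.card V) V E src dst rfl hT h3 hnf
  exact ⟨W, i1, i2, π, j, k1, k2, k3, k4, fun Γ hΓ => factor_case hΓ k4.cubic k4.girth k5, k5, k6⟩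

end Pool.Agent.Helper151_VT
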