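import Pool.Agent.Helper151_VT.Cuts
import Pool.Agent.Y335.FL.Stm3
import Pool.Agent.Y335.FL.Local11
import Pool.Agent.TH676.Z.Circ7

set_option autoImplicit false
set_option linter.unusedSectionVars false

/-! # Vertex-transitive multigraphs: short circuits and contraction of the blocks -/

namespace Pool.Agent.Helper151_VT

open Finset Pool.Agent.TH676.Z Pool.Agent.Y335.FL

variable {V E : Type} [Fintype V] [DecidableEq V] [Fintype E] [DecidableEq E] {src dst : E → V}

theorem crs_eq (X : Finset V) : crs src dst X = boundary src dst X := rfl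

/-- circuits give cycles -/
theorem circ_flow {n : ℕ} {v : Fin (n + 2) → V} {ed : Fin (n + 2) → E}
    (h : IsCircuit src dst v ed) : ∃ z : E → ZMod 5, (∀ x, bd src dst z x = 0) ∧
      (∀ e, z e = 0 ∨ z e = 1 ∨ z e = -1) ∧ ∀ e, z e ≠ 0 ↔ e ∈ univ.image ed := by
  have h10 : (1 : ZMod 5) ≠ 0 := by decide
  refine ⟨Circ7x.wc src v ed 1, fun x => ?_, fun e => ?_, fun e => ?_⟩
  · rw [Circ7x.bd_wc h.1 h.2.2]
    unfold dem
    simp
  · by_cases hx : ∃ i, e = ed i
    · obtain ⟨i, rfl⟩ := hx
      rw [Circ7x.wc_ed h.2.1]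
      split_ifs
      · right; left; rfl
      · right; right; rfl
    · push Not at hx
      left
      exact Circ7x.wc_off hx
  · constructor
    · intro h1
      by_contra h2
      apply h1
      apply Circ7x.wc_off
      intro i hi
      exact h2 (mem_image.mpr ⟨i, mem_univ i, hi.symm⟩)
    · intro h1
      obtain ⟨i, -, rfl⟩ := mem_image.mp h1
      rw [Circ7x.wc_ed h.2.1]
      split_ifs
      · exact h10
      · exact neg_ne_zero.mpr h10

/-- a family of circuits with at most eleven edges -/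
def Short (src dst : E → V) (C : Finset E) : Prop :=
  ∃ (n : ℕ) (v : Fin (n + 2) → V) (ed : Fin (n + 2) → E), n ≤ 9 ∧ IsCircuit src dst v ed ∧
    C = univ.image ed

theorem fam {ι : Type} [Fintype ι] (C : ι → Finset E) (hC : ∀ i, Short src dst (C i)) :
    ∃ (m : ℕ) (C' : Fin m → Finset E),
      (∀ i, ∃ z : E → ZMod 5, (∀ v, bd src dst z v = 0) ∧ (∀ e, z e = 0 ∨ z e = 1 ∨ z e = -1) ∧
        ∀ e, z e ≠ 0 ↔ e ∈ C' i) ∧
      (∀ i, (C' i \ (univ.filter (fun j => j < i)).biUnion C').card ≤ 11) ∧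
      univ.biUnion C' = univ.biUnion C := by
  refine ⟨Fintype.card ι, C ∘ (Fintype.equivFin ι).symm, fun i => ?_, fun i => ?_, ?_⟩
  · obtain ⟨n, v, ed, -, h, hC⟩ := hC ((Fintype.equivFin ι).symm i)
    simp only [Function.comp]
    rw [hC]
    exact circ_flow h
  · obtain ⟨n, v, ed, hn, h, hC⟩ := hC ((Fintype.equivFin ι).symm i)
    refine (card_le_card sdiff_subset).trans ?_
    simp only [Function.comp]
    rw [hC]
    refine card_image_le.trans ?_
    rw [card_univ, Fintype.card_fin]
    omega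
  · ext e
    simp only [mem_biUnion, mem_univ, true_and, Function.comp]
    constructor
    · rintro ⟨i, hi⟩
      exact ⟨_, hi⟩
    · rintro ⟨i, hi⟩
      exact ⟨Fintype.equivFin ι i, by rw [Equiv.symm_apply_apply]; exact hi⟩

theorem lift_fam (hL : St_lift) {ι : Type} [Fintype ι] (C : ι → Finset E)
    (hC : ∀ i, Short src dst (C i)) (h : FlowOn src dst ∅ (univ.biUnion C)) :
    FlowOn src dst ∅ ∅ := by
  obtain ⟨m, C', h1, h2, h3⟩ := fam C hC
  rw [← h3] at h
  exact hL V E src dst m C' h1 h2 h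

theorem cuts_fam (hloc : St_local) {ι : Type} [Fintype ι] (C : ι → Finset E)
    (hC : ∀ i, Short src dst (C i))
    (h : ∀ X : Finset V, X.Nonempty → X ≠ univ → Disjoint (boundary src dst X) (univ.biUnion C) →
      4 ≤ (boundary src dst X).card) :
    FlowOn src dst ∅ ∅ := by
  obtain ⟨m, C', h1, h2, h3⟩ := fam C hC
  refine hloc V E src dst m C' h1 h2 (fun X a b c => ?_) ?_
  · rw [h3] at c
    have := h X a b c
    rw [crs_eq]
    omega
  · intro X _ hcd
    exfalso
    have h4 := hcd 0
    rw [h3, crs_eq] at h4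
    have hne : (X 0).Nonempty := by
      rw [nonempty_iff_ne_empty]
      intro h
      have h2 := h4.1
      rw [h, boundary_empty] at h2
      simp at h2
    have hnu : X 0 ≠ univ := by
      intro h
      have h2 := h4.1
      rw [h] at h2
      simp [boundary] at h2
    have := h (X 0) hne hnu h4.2
    omega

/-- all cuts have at least four edges -/
theorem cuts_four (hloc : St_local)
    (h : ∀ X : Finset V, X.Nonempty → X ≠ univ → 4 ≤ (boundary src dst X).card) :
    FlowOn src dst ∅ ∅ :=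
  cuts_fam hloc (ι := Empty) (fun i => i.elim) (fun i => i.elim) fun X a b _ => h X a b

/-- cuts with three edges are stars, and there is a short circuit -/
theorem short_case (hloc : St_local) (hT : VertexTransitive src dst)
    (h3 : ∀ X : Finset V, X.Nonempty → X ≠ univ → 3 ≤ (boundary src dst X).card)
    (htr : ∀ X : Finset V, (boundary src dst X).card = 3 → X.card = 1 ∨ Xᶜ.card = 1)
    {n : ℕ} (hn : n ≤ 9) {v : Fin (n + 2) → V} {ed : Fin (n + 2) → E}
    (hc : IsCircuit src dst v ed) : FlowOn src dst ∅ ∅ := by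
  choose σ τ hστ hσ using fun u : V => hT (v 0) u
  refine cuts_fam hloc (ι := V) (fun u => univ.image (τ u ∘ ed))
    (fun u => ⟨n, σ u ∘ v, τ u ∘ ed, hn, hc.map (hστ u), rfl⟩) ?_
  intro X h1 h2 hdis
  by_contra hlt
  have h4 := h3 X h1 h2
  have h5 : (boundary src dst X).card = 3 := by omega
  have h6 : ∃ u, boundary src dst X = boundary src dst {u} := by
    rcases htr X h5 with h | h
    · obtain ⟨u, hu⟩ := card_eq_one.mp h
      exact ⟨u, by rw [hu]⟩
    · obtain ⟨u, hu⟩ := card_eq_one.mp h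
      exact ⟨u, by rw [← boundary_compl, hu]⟩
  obtain ⟨u, hu⟩ := h6
  have h7 : τ u (ed 0) ∈ univ.biUnion (fun u => univ.image (τ u ∘ ed)) :=
    mem_biUnion.mpr ⟨u, mem_univ u, mem_image.mpr ⟨0, mem_univ 0, rfl⟩⟩
  refine disjoint_left.mp hdis ?_ h7
  rw [hu, mem_boundary, mem_singleton, mem_singleton]
  have h8 := (hc.map (hστ u)).2.2 0
  have h9 := (hc.map (hστ u)).1
  have h10 : (σ u ∘ v) 0 = u := hσ u
  have h11 : (σ u ∘ v) (0 + 1) ≠ u := by
    intro h
    have h12 := congrArg Fin.val (h9 (h.trans h10.symm))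
    simp at h12
  rw [h10] at h8
  rcases h8 with ⟨a, b⟩ | ⟨a, b⟩
  · intro h
    exact h11 (b.symm.trans (h.mp a))
  · intro h
    exact h11 (a.symm.trans (h.mpr b))

/-- `u` and `v` lie in the same image of `X` -/
def blockRel (src dst : E → V) (X : Finset V) (u v : V) : Prop :=
  ∀ (σ : Equiv.Perm V) (τ : Equiv.Perm E), IsAut src dst σ τ → (σ u ∈ X ↔ σ v ∈ X)

/-- the setoid of the blocks -/
def blockSetoid (src dst : E → V) (X : Finset V) : Setoid V where
  r := blockRel src dst X
  iseqv := ⟨fun _ _ _ _ => Iff.rfl, fun h σ τ hs => (h σ τ hs).symm,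
    fun h h' σ τ hs => (h σ τ hs).trans (h' σ τ hs)⟩

theorem rel_iff {X : Finset V} (hb : IsBlock src dst X) {ρ : Equiv.Perm V} {τ : Equiv.Perm E}
    (h : IsAut src dst ρ τ) {u : V} (hu : ρ u ∈ X) (v : V) :
    blockRel src dst X u v ↔ ρ v ∈ X := by
  constructor
  · intro hr
    exact (hr ρ τ h).mp hu
  · intro hv σ τ' hσ
    have h1 := h.symm.trans hσ
    have e1 : (ρ.symm.trans σ) (ρ u) = σ u := by simp
    have e2 : (ρ.symm.trans σ) (ρ v) = σ v := by simp
    constructor
    · intro h2
      rw [← e2]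
      refine (hb _ _ h1 ⟨ρ u, hu, ?_⟩ _).mp hv
      rw [e1]
      exact h2
    · intro h2
      rw [← e1]
      refine (hb _ _ h1 ⟨ρ v, hv, ?_⟩ _).mp hu
      rw [e2]
      exact h2

theorem rel_map {X : Finset V} {σ : Equiv.Perm V} {τ : Equiv.Perm E} (h : IsAut src dst σ τ)
    (u v : V) : blockRel src dst X u v ↔ blockRel src dst X (σ u) (σ v) := by
  constructor
  · intro hr σ' τ' h'
    exact hr _ _ (h.trans h')
  · intro hr σ' τ' h'
    have h1 := hr _ _ (h.symm.trans h')
    simpa using h1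

/-- the vertices mapped to elements of `Y` -/
def preim {W : Type} [DecidableEq W] (π : V → W) (Y : Finset W) : Finset V :=
  univ.filter (fun x => π x ∈ Y)

theorem boundary_preim {W : Type} [DecidableEq W] (π : V → W) (Y : Finset W) :
    boundary (π ∘ src) (π ∘ dst) Y = boundary src dst (preim π Y) := by
  ext e
  simp [mem_boundary, preim]

theorem cuts_quot {W : Type} [Fintype W] [DecidableEq W] (π : V → W)
    (hπ : Function.Surjective π) (l : ℕ)
    (h : ∀ X : Finset V, X.Nonempty → X ≠ univ → l ≤ (boundary src dst X).card) (Y : Finset W)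
    (h1 : Y.Nonempty) (h2 : Y ≠ univ) : l ≤ (boundary (π ∘ src) (π ∘ dst) Y).card := by
  rw [boundary_preim]
  apply h
  · obtain ⟨w, hw⟩ := h1
    obtain ⟨x, rfl⟩ := hπ w
    exact ⟨x, by simpa [preim] using hw⟩
  · intro hcon
    apply h2
    ext w
    obtain ⟨x, rfl⟩ := hπ w
    have : x ∈ preim π Y := by rw [hcon]; exact mem_univ _
    simpa [preim] using this

/-- A circuit of length three -/
theorem triangle_circuit {a b c : V} (hab : a ≠ b) (hac : a ≠ c) (hbc : b ≠ c) {e1 e2 e3 : E}
    (h1 : e1 ∈ joining src dst a b) (h2 : e2 ∈ joining src dst b c)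
    (h3 : e3 ∈ joining src dst a c) : IsCircuit src dst (n := 1) ![a, b, c] ![e1, e2, e3] := by
  simp only [joining, mem_filter, mem_univ, true_and] at h1 h2 h3
  refine ⟨?_, ?_, ?_⟩
  · intro i j hij
    fin_cases i <;> fin_cases j <;> simp_all
  · have n12 : e1 ≠ e2 := by
      rintro rfl
      rcases h1 with ⟨p, q⟩ | ⟨p, q⟩ <;> rcases h2 with ⟨r, s⟩ | ⟨r, s⟩
      · exact hab (p.symm.trans r)
      · exact hac (p.symm.trans r)
      · exact hac (q.symm.trans s)
      · exact hab (q.symm.trans s)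
    have n13 : e1 ≠ e3 := by
      rintro rfl
      rcases h1 with ⟨p, q⟩ | ⟨p, q⟩ <;> rcases h3 with ⟨r, s⟩ | ⟨r, s⟩
      · exact hbc (q.symm.trans s)
      · exact hac (p.symm.trans r)
      · exact hab (r.symm.trans p)
      · exact hbc (p.symm.trans r)
    have n23 : e2 ≠ e3 := by
      rintro rfl
      rcases h2 with ⟨p, q⟩ | ⟨p, q⟩ <;> rcases h3 with ⟨r, s⟩ | ⟨r, s⟩
      · exact hab (r.symm.trans p)
      · exact hbc (p.symm.trans r)
      · exact hac (r.symm.trans p)
      · exact hab (s.symm.trans q)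
    intro i j hij
    fin_cases i <;> fin_cases j <;> simp_all
  · intro i
    fin_cases i
    · exact h1
    · exact h2
    · show (src e3 = c ∧ dst e3 = a) ∨ (src e3 = a ∧ dst e3 = c)
      exact h3.symm

end Pool.Agent.Helper151_VT
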