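import Pool.Agent.Helper151_VT.Orbits

set_option autoImplicit false
set_option linter.unusedSectionVars false

/-! # Vertex-transitive graphs without parallel edges -/

namespace Pool.Agent.Helper151_VT

open Finset Pool.Agent.TH676.Z Pool.Agent.Y335.FL

/-- Different vertices are joined by at most one edge. -/
def NoParallel {V E : Type} [DecidableEq V] [Fintype E] (src dst : E → V) : Prop :=
  ∀ x y, x ≠ y → (joining src dst x y).card ≤ 1

/-- a circuit stays a circuit under an injective map of the vertices -/
theorem IsCircuit.comp {V W E : Type} {src dst : E → V} {π : V → W} (hπ : Function.Injective π)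
    {n : ℕ} {v : Fin (n + 2) → V} {ed : Fin (n + 2) → E} (h : IsCircuit src dst v ed) :
    IsCircuit (π ∘ src) (π ∘ dst) (π ∘ v) ed := by
  refine ⟨hπ.comp h.1, h.2.1, fun i => ?_⟩
  simp only [Function.comp]
  rcases h.2.2 i with ⟨p, q⟩ | ⟨p, q⟩
  · exact Or.inl ⟨by rw [p], by rw [q]⟩
  · exact Or.inr ⟨by rw [p], by rw [q]⟩

/-- vertex-transitive graphs without parallel edges -/
theorem simple_case (hL : St_lift) (hloc : St_local) {V E : Type} [Fintype V] [DecidableEq V]
    [Fintype E] [DecidableEq E] (src dst : E → V) (hT : VertexTransitive src dst)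
    (hconn : ∀ X : Finset V, X.Nonempty → X ≠ univ → 1 ≤ (boundary src dst X).card)
    (hs : NoParallel src dst) (hdeg : ∀ x, 2 ≤ (boundary src dst {x}).card)
    (h : (∃ x, (boundary src dst {x}).card ≠ 3) ∨
      ((∀ x y z, x ≠ y → x ≠ z → y ≠ z → (joining src dst x y).card = 0 ∨
        (joining src dst x z).card = 0 ∨ (joining src dst y z).card = 0) ∧
      ∃ (n : ℕ) (v : Fin (n + 2) → V) (ed : Fin (n + 2) → E), IsCircuit src dst v ed ∧
        n + 2 ≤ 11)) : FlowOn src dst ∅ ∅ := by
  classical
  by_contra hnf
  obtain ⟨W, _, _, π, j, hsur, hf, -, hres, -, -, htri⟩ := reduction_all hL hloc src dst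
    hT hconn hdeg hnf
  by_cases hj : j = 0
  · rw [hj] at hf
    have hinj : Function.Injective π := by
      intro x y hxy
      obtain ⟨z, hz⟩ := card_eq_one.mp (hf (π y))
      have h4 : x ∈ univ.filter (fun x => π x = π y) := by simp [hxy]
      have h5 : y ∈ univ.filter (fun x => π x = π y) := by simp
      rw [hz, mem_singleton] at h4 h5
      rw [h4, h5]
    rcases h with ⟨x, hx⟩ | ⟨-, n, v, ed, hc, hn⟩
    · have h4 := hres.cubic (π x)
      rw [boundary_preim] at h4
      have h5 : preim π {π x} = {x} := by
        ext y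
        simp only [preim, mem_filter, mem_univ, true_and, mem_singleton]
        exact ⟨fun h => hinj h, fun h => by rw [h]⟩
      rw [h5] at h4
      exact hx h4
    · have h4 := hres.girth n _ _ (hc.comp hinj)
      omega
  · obtain ⟨m, hm⟩ := htri hj
    rcases h with ⟨x, hx⟩ | ⟨hno, -⟩
    · obtain ⟨h4, y, z, h5, -, -, h6, -⟩ := hm x
      have := hs x y h5
      have := hdeg x
      omega
    · obtain ⟨x⟩ : Nonempty V := by
        by_contra hne
        rw [not_nonempty_iff] at hne
        apply hnf
        exact cuts_four hloc fun X a _ => by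
          obtain ⟨x, -⟩ := a
          exact (hne.false x).elim
      obtain ⟨h4, y, z, h5, h6, h7, h8, h9, h10⟩ := hm x
      have := hdeg x
      rcases hno x y z h5 h6 h7 with h | h | h <;> omega

end Pool.Agent.Helper151_VT
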